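import Pool.Agent.HGC.Defs

/-!
# Hypergraph cubics, module PR: affine cones over projective schemes
-/

set_option autoImplicit false

open scoped BigOperators

namespace Pool.Agent.HGC

/-- Scaling a point scales the value of a homogeneous polynomial. -/
theorem aeval_smul_of_isHomogeneous {n : ℕ} {P : MvPolynomial (Fin n) ℤ} {d : ℕ}
    (hP : P.IsHomogeneous d) {K : Type} [Field K] (c : K) (x : Fin n → K) :
    MvPolynomial.aeval (c • x) P = c ^ d * MvPolynomial.aeval x P := by
  rw [MvPolynomial.aeval_def, MvPolynomial.aeval_def, MvPolynomial.eval₂_eq, MvPolynomial.eval₂_eq,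
    Finset.mul_sum]
  refine Finset.sum_congr rfl fun m hm => ?_
  have hd : ∑ i ∈ m.support, m i = d := by
    have h1 := hP (MvPolynomial.mem_support_iff.mp hm)
    rw [← h1, Finsupp.weight_apply, Finsupp.sum]
    simp
  simp only [Pi.smul_apply, smul_eq_mul, mul_pow]
  rw [Finset.prod_mul_distrib, Finset.prod_pow_eq_pow_sum, hd]
  ring

/-- A homogeneous polynomial of positive degree vanishes at the origin. -/
theorem aeval_zero_of_isHomogeneous {n : ℕ} {P : MvPolynomial (Fin n) ℤ} {d : ℕ} (hd : 1 ≤ d)
    (hP : P.IsHomogeneous d) {K : Type} [Field K] :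
    MvPolynomial.aeval (0 : Fin n → K) P = 0 := by
  have h := aeval_smul_of_isHomogeneous hP (0 : K) (0 : Fin n → K)
  rw [zero_smul, zero_pow (by omega), zero_mul] at h
  exact h

theorem aff_proj {n m : ℕ} (P : Fin m → MvPolynomial (Fin n) ℤ) (d : Fin m → ℕ)
    (hd : ∀ i, 1 ≤ d i) (hP : ∀ i, (P i).IsHomogeneous (d i)) (K : Type) [Field K] [Finite K] :
    (affCount P K : ℤ) = 1 + ((Nat.card K : ℤ) - 1) * projCount P K := by
  classical
  -- the map from projective zeros times units
  let F : Option ({v : Projectivization K (Fin n → K) //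
      ∀ i, MvPolynomial.aeval v.rep (P i) = 0} × Kˣ) →
      {x : Fin n → K // ∀ i, MvPolynomial.aeval x (P i) = 0} := fun o =>
    match o with
    | none => ⟨0, fun i => aeval_zero_of_isHomogeneous (hd i) (hP i)⟩
    | some vu => ⟨(vu.2 : K) • vu.1.1.rep, fun i => by
        rw [aeval_smul_of_isHomogeneous (hP i), vu.1.2 i, mul_zero]⟩
  have hF : Function.Bijective F := by
    constructor
    · rintro (_ | ⟨⟨v, hv⟩, u⟩) (_ | ⟨⟨v', hv'⟩, u'⟩) h
      · rfl
      · exfalso
        have h1 : (0 : Fin n → K) = (u' : K) • v'.rep := congrArg Subtype.val h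
        exact (smul_ne_zero u'.ne_zero v'.rep_nonzero) h1.symm
      · exfalso
        have h1 : (u : K) • v.rep = (0 : Fin n → K) := congrArg Subtype.val h
        exact (smul_ne_zero u.ne_zero v.rep_nonzero) h1
      · have h1 : (u : K) • v.rep = (u' : K) • v'.rep := congrArg Subtype.val h
        have h2 : v = v' := by
          rw [← v.mk_rep, ← v'.mk_rep, Projectivization.mk_eq_mk_iff']
          refine ⟨(u : K)⁻¹ * u', ?_⟩
          rw [mul_smul, ← h1, smul_smul, inv_mul_cancel₀ u.ne_zero, one_smul]
        subst h2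
        have h3 : (u : K) = u' := by
          have h4 : ((u : K) - u') • v.rep = 0 := by rw [sub_smul, h1, sub_self]
          rcases smul_eq_zero.mp h4 with h5 | h5
          · exact sub_eq_zero.mp h5
          · exact absurd h5 v.rep_nonzero
        have h6 : u = u' := Units.ext h3
        rw [h6]
    · rintro ⟨x, hx⟩
      by_cases hx0 : x = 0
      · refine ⟨none, ?_⟩
        apply Subtype.ext
        exact hx0.symm
      · obtain ⟨a, ha⟩ := Projectivization.exists_smul_eq_mk_rep K x hx0
        refine ⟨some (⟨Projectivization.mk K x hx0, fun i => ?_⟩, a⁻¹), ?_⟩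
        · rw [← ha, Units.smul_def, aeval_smul_of_isHomogeneous (hP i), hx i, mul_zero]
        · apply Subtype.ext
          change ((a⁻¹ : Kˣ) : K) • (Projectivization.mk K x hx0).rep = x
          rw [← ha, ← Units.smul_def, smul_smul, inv_mul_cancel, one_smul]
  have hc := Nat.card_eq_of_bijective F hF
  have : Finite (Projectivization K (Fin n → K)) := by
    exact (Projectivization.finite_iff_of_finite K (Fin n → K)).mpr inferInstance
  unfold affCount projCount
  rw [← hc, Finite.card_option, Nat.card_prod, Nat.card_units]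
  have hK : 1 ≤ Nat.card K := Nat.card_pos
  push_cast [Nat.cast_sub hK]
  ring

end Pool.Agent.HGC
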