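import Pool.Agent.HGC.Defs

/-! # Closure properties of `Continues` -/

set_option autoImplicit false

open scoped BigOperators Topology
open Filter

namespace Pool.Agent.HGC

theorem term_congr {f g : PF} (h : ∀ p r, 1 ≤ r → f p r = g p r) (s : ℂ) : term f s = term g s := by
  funext x
  simp only [term]
  rw [h x.1 (x.2 + 1) (by omega)]

theorem continues_congr {f g : PF} (h : ∀ p r, 1 ≤ r → f p r = g p r) (hf : Continues f) :
    Continues g := by
  obtain ⟨σ, G, hG, hs⟩ := hf
  refine ⟨σ, G, hG, fun s hs' => ?_⟩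
  rw [← term_congr h s]
  exact hs s hs'

theorem term_add (f g : PF) (s : ℂ) (x : Nat.Primes × ℕ) :
    term (fun p r => f p r + g p r) s x = term f s x + term g s x := by
  simp only [term]; ring

theorem term_neg (f : PF) (s : ℂ) (x : Nat.Primes × ℕ) :
    term (fun p r => -f p r) s x = -term f s x := by
  simp only [term]; ring

theorem continues_add {f g : PF} (hf : Continues f) (hg : Continues g) :
    Continues fun p r => f p r + g p r := by
  obtain ⟨σ, F, hF, hs⟩ := hf
  obtain ⟨τ, G, hG, ht⟩ := hg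
  refine ⟨max σ τ, fun s => F s * G s, by fun_prop, fun s hs' => ?_⟩
  obtain ⟨h1, h2⟩ := hs s (lt_of_le_of_lt (le_max_left _ _) hs')
  obtain ⟨h3, h4⟩ := ht s (lt_of_le_of_lt (le_max_right _ _) hs')
  have he : term (fun p r => f p r + g p r) s = fun x => term f s x + term g s x :=
    funext fun x => term_add f g s x
  rw [he]
  refine ⟨h1.add h3, ?_⟩
  change F s * G s = _
  rw [h1.tsum_add h3, Complex.exp_add, h2, h4]

theorem continues_neg {f : PF} (hf : Continues f) : Continues fun p r => -f p r := by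
  obtain ⟨σ, F, hF, hs⟩ := hf
  refine ⟨σ, fun s => (F s)⁻¹, by fun_prop, fun s hs' => ?_⟩
  obtain ⟨h1, h2⟩ := hs s hs'
  have he : term (fun p r => -f p r) s = fun x => -term f s x := funext fun x => term_neg f s x
  rw [he]
  refine ⟨h1.neg, ?_⟩
  change (F s)⁻¹ = _
  rw [tsum_neg, Complex.exp_neg, h2]

theorem prime_cast_ne (p : Nat.Primes) : (((p : ℕ) : ℂ)) ≠ 0 := by
  exact_mod_cast p.2.ne_zero

theorem term_mulq (f : PF) (s : ℂ) :
    term (fun p r => ((p : ℕ) : ℂ) ^ r * f p r) s = term f (s - 1) := by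
  funext x
  simp only [term]
  have hp := prime_cast_ne x.1
  have h1 : -(((x.2 + 1 : ℕ) : ℂ) * (s - 1)) = -(((x.2 + 1 : ℕ) : ℂ) * s) + ((x.2 + 1 : ℕ) : ℂ) := by
    ring
  rw [h1, Complex.cpow_add _ _ hp, Complex.cpow_natCast]
  ring

theorem meromorphic_shift {g : ℂ → ℂ} (hg : Meromorphic g) (c : ℂ) : Meromorphic fun s => g (s + c) := by
  intro x
  exact (hg (x + c)).comp_analyticAt (g := fun z => z + c) (by fun_prop)

theorem continues_mulq_iff {f : PF} :
    (Continues fun p r => ((p : ℕ) : ℂ) ^ r * f p r) ↔ Continues f := by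
  constructor
  · rintro ⟨σ, G, hG, hs⟩
    refine ⟨σ - 1, fun s => G (s + 1), meromorphic_shift hG 1, fun s hs' => ?_⟩
    have := hs (s + 1) (by simp; linarith)
    rw [term_mulq] at this
    simpa using this
  · rintro ⟨σ, G, hG, hs⟩
    refine ⟨σ + 1, fun s => G (s + -1), meromorphic_shift hG (-1), fun s hs' => ?_⟩
    rw [term_mulq]
    have := hs (s - 1) (by simp; linarith)
    simpa [sub_eq_add_neg] using this

theorem norm_term (f : PF) (s : ℂ) (x : Nat.Primes × ℕ) :
    ‖term f s x‖ = ‖f x.1 (x.2 + 1)‖ * ((x.1 : ℕ) : ℝ) ^ (-(((x.2 + 1 : ℕ) : ℝ) * s.re)) /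
      ((x.2 + 1 : ℕ) : ℝ) := by
  simp only [term, norm_div, norm_mul]
  rw [Complex.norm_natCast_cpow_of_pos x.1.2.pos]
  congr 2
  · congr 2
    simp
  · rw [Complex.norm_natCast]

theorem norm_term_mono (f : PF) {s t : ℂ} (h : t.re ≤ s.re) (x : Nat.Primes × ℕ) :
    ‖term f s x‖ ≤ ‖term f t x‖ := by
  rw [norm_term, norm_term]
  have hp : (1 : ℝ) ≤ ((x.1 : ℕ) : ℝ) := by exact_mod_cast x.1.2.one_lt.le
  gcongr ?_ / _
  refine mul_le_mul_of_nonneg_left ?_ (norm_nonneg _)
  apply Real.rpow_le_rpow_of_exponent_le hp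
  have : (0 : ℝ) ≤ ((x.2 + 1 : ℕ) : ℝ) := by positivity
  nlinarith

theorem differentiable_term (f : PF) (x : Nat.Primes × ℕ) : Differentiable ℂ fun s => term f s x := by
  unfold term
  have hp := prime_cast_ne x.1
  intro s
  refine DifferentiableAt.div_const (DifferentiableAt.const_mul ?_ _) _
  refine DifferentiableAt.const_cpow (by fun_prop) (Or.inl hp)

theorem analyticAt_sum {f : PF} {σ : ℝ} (h : ∀ s : ℂ, σ < s.re → Summable (term f s)) {s : ℂ}
    (hs : σ < s.re) : AnalyticAt ℂ (fun s => ∑' x, term f s x) s := by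
  obtain ⟨τ, h1, h2⟩ := exists_between hs
  have hopen : IsOpen {z : ℂ | τ < z.re} := isOpen_lt continuous_const Complex.continuous_re
  have hd : DifferentiableOn ℂ (fun s => ∑' x, term f s x) {z : ℂ | τ < z.re} := by
    have hu : Summable fun x => ‖term f (τ : ℂ) x‖ := (h (τ : ℂ) (by simpa using h1)).norm
    refine Complex.differentiableOn_tsum_of_summable_norm hu
      (fun x => (differentiable_term f x).differentiableOn) hopen ?_
    intro x w hw
    exact norm_term_mono f (by simpa using (le_of_lt hw)) x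
  exact hd.analyticAt (hopen.mem_nhds h2)

theorem one_le_norm_q_sub_one (p : Nat.Primes) (r : ℕ) (hr : 1 ≤ r) :
    1 ≤ ‖(((p : ℕ) : ℂ) ^ r - 1)‖ := by
  have h2 : (2 : ℝ) ≤ ((p : ℕ) : ℝ) ^ r := by
    have : (2 : ℕ) ≤ (p : ℕ) ^ r := le_trans p.2.two_le (Nat.le_self_pow (by omega) _)
    exact_mod_cast this
  have : ‖(((p : ℕ) : ℂ) ^ r - 1)‖ ≥ ‖(((p : ℕ) : ℂ) ^ r)‖ - ‖(1 : ℂ)‖ := norm_sub_norm_le _ _
  rw [norm_pow, Complex.norm_natCast, norm_one] at this
  linarith

theorem continues_divq1 {f : PF} (hf : Continues fun p r => (((p : ℕ) : ℂ) ^ r - 1) * f p r) :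
    Continues f := by
  obtain ⟨σ, g, hg, hs⟩ := hf
  -- summability of `term f s`
  have hsum : ∀ s : ℂ, σ < s.re → Summable (term f s) := by
    intro s hs'
    refine Summable.of_norm_bounded (hs s hs').1.norm fun x => ?_
    rw [norm_term, norm_term]
    gcongr ?_ / _
    refine mul_le_mul_of_nonneg_right ?_ (by positivity)
    rw [norm_mul]
    have := one_le_norm_q_sub_one x.1 (x.2 + 1) (by omega)
    nlinarith [norm_nonneg (f x.1 (x.2 + 1))]
  set E : ℂ → ℂ := fun s => Complex.exp (∑' x, term f s x) with hE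
  have hEan : ∀ s : ℂ, σ < s.re → AnalyticAt ℂ E s := fun s hs' =>
    (analyticAt_sum hsum hs').cexp
  -- functional relation
  have hrel : ∀ s : ℂ, σ < s.re → E s = g (s + 1) * E (s + 1) := by
    intro s hs'
    have h1 : σ < (s + 1).re := by simp; linarith
    obtain ⟨_, h3⟩ := hs (s + 1) h1
    have h4 : term (fun p r => (((p : ℕ) : ℂ) ^ r - 1) * f p r) (s + 1) =
        fun x => term f s x - term f (s + 1) x := by
      funext x
      have := congrFun (term_mulq f (s + 1)) x
      rw [add_sub_cancel_right] at this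
      rw [← this]
      simp only [term]
      ring
    rw [h4, (hsum s hs').tsum_sub (hsum _ h1), Complex.exp_sub] at h3
    rw [h3, hE]
    field_simp
  let Ek : ℕ → ℂ → ℂ := fun k s => (∏ j ∈ Finset.range k, g (s + ((j + 1 : ℕ) : ℂ))) * E (s + (k : ℂ))
  have hstep : ∀ (k : ℕ) (s : ℂ), σ < s.re + k → Ek k s = Ek (k + 1) s := by
    intro k s h
    simp only [Ek]
    rw [Finset.prod_range_succ, mul_assoc]
    congr 1
    have := hrel (s + k) (by simpa using h)
    rw [this]
    push_cast
    rw [add_assoc]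
  have hmono : ∀ (k m : ℕ) (s : ℂ), σ < s.re + k → k ≤ m → Ek m s = Ek k s := by
    intro k m s h hkm
    induction m, hkm using Nat.le_induction with
    | base => rfl
    | succ m hm ih =>
      rw [← ih]
      refine (hstep m s ?_).symm
      have : (k : ℝ) ≤ m := by exact_mod_cast hm
      linarith
  let kk : ℂ → ℕ := fun s => ⌈σ - s.re⌉₊ + 1
  have hkk : ∀ s, σ < s.re + kk s := by
    intro s
    have := Nat.le_ceil (σ - s.re)
    simp only [kk]
    push_cast
    linarith
  refine ⟨σ, fun s => Ek (kk s) s, ?_, fun s hs' => ⟨hsum s hs', ?_⟩⟩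
  · intro s₀
    set K := kk s₀ + 1 with hK
    have hmer : MeromorphicAt (Ek K) s₀ := by
      simp only [Ek]
      refine MeromorphicAt.fun_mul ?_ ?_
      · refine MeromorphicAt.fun_prod fun j _ => ?_
        exact meromorphic_shift hg _ s₀
      · have h1 : σ < (s₀ + (K : ℂ)).re := by
          have := hkk s₀
          simp only [Complex.add_re, Complex.natCast_re]
          have : (K : ℝ) = kk s₀ + 1 := by rw [hK]; push_cast; ring
          linarith
        exact (AnalyticAt.fun_comp (f := fun z : ℂ => z + (K : ℂ)) (g := E) (x := s₀) (hEan _ h1)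
          (by fun_prop)).meromorphicAt
    refine hmer.congr ?_
    have hnear : ∀ᶠ s : ℂ in 𝓝 s₀, s₀.re - 1 < s.re := by
      have hopen : IsOpen {z : ℂ | s₀.re - 1 < z.re} := isOpen_lt continuous_const Complex.continuous_re
      exact hopen.mem_nhds (by simp)
    filter_upwards [nhdsWithin_le_nhds hnear] with s hs
    refine hmono (kk s) K s (hkk s) ?_
    simp only [kk, hK]
    have : ⌈σ - s.re⌉₊ ≤ ⌈σ - s₀.re⌉₊ + 1 := by
      refine Nat.ceil_le.2 ?_
      have := Nat.le_ceil (σ - s₀.re)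
      push_cast
      linarith
    omega
  · have h0 : Ek (kk s) s = Ek 0 s := hmono 0 (kk s) s (by simpa using hs') (Nat.zero_le _)
    change Ek (kk s) s = _
    rw [h0]
    simp [Ek, hE]

end Pool.Agent.HGC
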