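import Pool.Agent.HGC.Defs

/-! Module DS, first half: `DirSpan` is closed under products; the constants. -/

set_option autoImplicit false

open scoped BigOperators

namespace Pool.Agent.HGC

theorem DirSpan.mul {f g : PF} (hf : DirSpan f) (hg : DirSpan g) :
    DirSpan fun p r => f p r * g p r := by
  induction hf with
  | basic k N χ =>
    induction hg with
    | basic l M ψ =>
      have : NeZero (N * M) := ⟨mul_ne_zero (NeZero.ne N) (NeZero.ne M)⟩
      refine DirSpan.congr ?_ (DirSpan.basic (k + l) (N * M)
        (DirichletCharacter.changeLevel (Dvd.intro _ rfl) χ *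
          DirichletCharacter.changeLevel (Dvd.intro_left _ rfl) ψ))
      intro p r hr
      have hp0 : ((p : ℕ) : ℂ) ≠ 0 := by exact_mod_cast p.2.ne_zero
      rw [← mul_pow]
      congr 1
      rw [zpow_add₀ hp0, MulChar.mul_apply]
      by_cases hN : (p : ℕ).Coprime N
      · by_cases hM : (p : ℕ).Coprime M
        · have hNM : (p : ℕ).Coprime (N * M) := Nat.Coprime.mul_right hN hM
          have hu : IsUnit (((p : ℕ) : ZMod (N * M))) := (ZMod.isUnit_iff_coprime _ _).mpr hNM
          rw [← hu.unit_spec, DirichletCharacter.changeLevel_eq_cast_of_dvd,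
            DirichletCharacter.changeLevel_eq_cast_of_dvd, hu.unit_spec,
            ZMod.cast_natCast (Dvd.intro _ rfl), ZMod.cast_natCast (Dvd.intro_left _ rfl)]
          ring
        · have h1 : ¬ IsUnit (((p : ℕ) : ZMod M)) := by
            rw [ZMod.isUnit_iff_coprime]; exact hM
          have h2 : ¬ IsUnit (((p : ℕ) : ZMod (N * M))) := by
            rw [ZMod.isUnit_iff_coprime]; exact fun h => hM (Nat.Coprime.coprime_mul_left_right h)
          rw [MulChar.map_nonunit ψ h1, MulChar.map_nonunit _ h2]
          simp
      · have h1 : ¬ IsUnit (((p : ℕ) : ZMod N)) := by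
          rw [ZMod.isUnit_iff_coprime]; exact hN
        have h2 : ¬ IsUnit (((p : ℕ) : ZMod (N * M))) := by
          rw [ZMod.isUnit_iff_coprime]; exact fun h => hN (Nat.Coprime.coprime_mul_right_right h)
        rw [MulChar.map_nonunit χ h1, MulChar.map_nonunit _ h2]
        simp
    | add _ _ h1 h2 =>
      refine DirSpan.congr ?_ (DirSpan.add h1 h2)
      intro p r _; ring
    | neg _ h1 =>
      refine DirSpan.congr ?_ (DirSpan.neg h1)
      intro p r _; ring
    | congr h _ h1 =>
      refine DirSpan.congr ?_ h1
      intro p r hr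
      rw [h p r hr]
  | add _ _ h1 h2 =>
    refine DirSpan.congr ?_ (DirSpan.add h1 h2)
    intro p r _; ring
  | neg _ h1 =>
    refine DirSpan.congr ?_ (DirSpan.neg h1)
    intro p r _; ring
  | congr h _ h1 =>
    refine DirSpan.congr ?_ h1
    intro p r hr
    rw [h p r hr]

theorem DirSpan.one : DirSpan fun _ _ => 1 :=
  DirSpan.congr (fun p r _ => by
    rw [MulChar.one_apply (isUnit_of_subsingleton _)]; simp) (DirSpan.basic 0 1 1)

theorem DirSpan.zero : DirSpan fun _ _ => 0 :=
  DirSpan.congr (fun p r _ => by simp) (DirSpan.add DirSpan.one (DirSpan.neg DirSpan.one))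

/-- The powers `q ^ k`, `k` an integer. -/
theorem DirSpan.qpow (k : ℤ) : DirSpan fun p r => (((p : ℕ) : ℂ) ^ r) ^ k :=
  DirSpan.congr (fun p r _ => by
    simp only [MulChar.one_apply (isUnit_of_subsingleton _), mul_one]
    rw [← zpow_natCast, ← zpow_natCast, ← zpow_mul, ← zpow_mul, mul_comm]) (DirSpan.basic k 1 1)

theorem DirSpan.sub {f g : PF} (hf : DirSpan f) (hg : DirSpan g) :
    DirSpan fun p r => f p r - g p r :=
  DirSpan.congr (fun p r _ => by ring) (DirSpan.add hf (DirSpan.neg hg))

theorem DirSpan.sum {ι : Type*} (s : Finset ι) (f : ι → PF) (hf : ∀ i ∈ s, DirSpan (f i)) :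
    DirSpan fun p r => ∑ i ∈ s, f i p r := by
  classical
  induction s using Finset.induction_on with
  | empty => simpa using DirSpan.zero
  | insert a s ha ih =>
    refine DirSpan.congr (fun p r _ => (Finset.sum_insert ha).symm)
      (DirSpan.add (hf a (Finset.mem_insert_self a s))
        (ih fun i hi => hf i (Finset.mem_insert_of_mem hi)))

theorem DirSpan.prod {ι : Type*} (s : Finset ι) (f : ι → PF) (hf : ∀ i ∈ s, DirSpan (f i)) :
    DirSpan fun p r => ∏ i ∈ s, f i p r := by
  classical
  induction s using Finset.induction_on with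
  | empty => simpa using DirSpan.one
  | insert a s ha ih =>
    refine DirSpan.congr (fun p r _ => (Finset.prod_insert ha).symm)
      (DirSpan.mul (hf a (Finset.mem_insert_self a s))
        (ih fun i hi => hf i (Finset.mem_insert_of_mem hi)))

end Pool.Agent.HGC
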