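import Pool.Agent.HGC.Char
import Pool.Agent.HGC.DirSpanMul

/-! Module DS: finite integral combinations of shifted Dirichlet characters. -/

set_option autoImplicit false

open scoped BigOperators

namespace Pool.Agent.HGC

namespace DSAux

theorem continues_zero : Continues fun _ _ => 0 := by
  have h := continues_char 0 1 1
  exact continues_congr (fun p r _ => by simp) (continues_add h (continues_neg h))

theorem norm_char (N : ℕ) [NeZero N] (χ : DirichletCharacter ℂ N) (a : ZMod N) :
    ‖χ a‖ = 0 ∨ ‖χ a‖ = 1 := by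
  by_cases h : IsUnit a
  · right
    obtain ⟨u, rfl⟩ := h
    exact DirichletCharacter.unit_norm_eq_one χ u
  · left
    rw [MulChar.map_nonunit χ h, norm_zero]

theorem rpow_half (p : Nat.Primes) (k : ℤ) :
    ((p : ℕ) : ℝ) ^ (((2 * k : ℤ) : ℝ) / 2) = ((p : ℕ) : ℝ) ^ k := by
  rw [show (((2 * k : ℤ) : ℝ) / 2) = (k : ℝ) by push_cast; ring, Real.rpow_intCast]

theorem zpow_ne_rpow (p : Nat.Primes) (k w : ℤ) (h : w ≠ 2 * k) :
    ((p : ℕ) : ℝ) ^ k ≠ ((p : ℕ) : ℝ) ^ ((w : ℝ) / 2) := by
  have hp : (1 : ℝ) < ((p : ℕ) : ℝ) := by exact_mod_cast p.2.one_lt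
  intro h'
  rw [← Real.rpow_intCast] at h'
  have h2 := (Real.strictMono_rpow_of_base_gt_one hp).injective h'
  apply h
  have : (w : ℝ) = 2 * k := by linarith
  exact_mod_cast this

theorem weightPart_add (μ ν : Nat.Primes → ℂ →₀ ℤ) (w : ℤ) (p : Nat.Primes) (r : ℕ) :
    weightPart (fun p => μ p + ν p) w p r = weightPart μ w p r + weightPart ν w p r := by
  unfold weightPart
  rw [Finsupp.filter_add, Finsupp.sum_add_index']
  · intro a; simp
  · intro a b c; push_cast; ring

theorem weightPart_neg (μ : Nat.Primes → ℂ →₀ ℤ) (w : ℤ) (p : Nat.Primes) (r : ℕ) :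
    weightPart (fun p => -μ p) w p r = -weightPart μ w p r := by
  unfold weightPart
  rw [Finsupp.filter_neg, Finsupp.sum_neg_index, Finsupp.sum, Finsupp.sum, ← Finset.sum_neg_distrib]
  · refine Finset.sum_congr rfl fun a _ => ?_
    push_cast; ring
  · intro a; simp

end DSAux

theorem dirSpan_continues {f : PF} (hf : DirSpan f) :
    Continues f ∧ ∃ μ, IsSpectrum f μ ∧ ∀ w, Continues (weightPart μ w) := by
  induction hf with
  | basic k N χ =>
    refine ⟨continues_char k N χ,
      fun p => Finsupp.single (((p : ℕ) : ℂ) ^ k * χ ((p : ℕ) : ZMod N)) 1, ?_, ?_⟩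
    · intro p r _
      rw [Finsupp.sum_single_index] <;> simp
    · intro w
      by_cases hw : w = 2 * k
      · subst hw
        refine continues_congr ?_ (continues_char k N χ)
        intro p r hr
        unfold weightPart
        have hp : (0 : ℝ) < ((p : ℕ) : ℝ) := by exact_mod_cast p.2.pos
        rw [DSAux.rpow_half]
        rcases DSAux.norm_char N χ ((p : ℕ) : ZMod N) with h | h
        · have h0 : χ ((p : ℕ) : ZMod N) = 0 := norm_eq_zero.mp h
          rw [h0, mul_zero, zero_pow (by omega)]
          rw [Finsupp.filter_single_of_neg]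
          · simp
          · rw [norm_mul, h, mul_zero]
            exact (zpow_pos hp k).ne
        · rw [Finsupp.filter_single_of_pos]
          · rw [Finsupp.sum_single_index] <;> simp
          · rw [norm_mul, h, mul_one, norm_zpow, Complex.norm_natCast]
      · refine continues_congr ?_ DSAux.continues_zero
        intro p r hr
        unfold weightPart
        have hp : (0 : ℝ) < ((p : ℕ) : ℝ) := by exact_mod_cast p.2.pos
        rw [Finsupp.filter_single_of_neg]
        · simp
        · rcases DSAux.norm_char N χ ((p : ℕ) : ZMod N) with h | h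
          · rw [norm_mul, h, mul_zero]
            exact (Real.rpow_pos_of_pos hp _).ne
          · rw [norm_mul, h, mul_one, norm_zpow, Complex.norm_natCast]
            exact DSAux.zpow_ne_rpow p k w hw
  | add _ _ h1 h2 =>
    obtain ⟨c1, μ, hμ, hw1⟩ := h1
    obtain ⟨c2, ν, hν, hw2⟩ := h2
    refine ⟨continues_add c1 c2, fun p => μ p + ν p, ?_, ?_⟩
    · intro p r hr
      rw [Finsupp.sum_add_index', ← hμ p r hr, ← hν p r hr]
      · intro a; simp
      · intro a b c; push_cast; ring
    · intro w
      refine continues_congr ?_ (continues_add (hw1 w) (hw2 w))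
      intro p r _
      exact (DSAux.weightPart_add μ ν w p r).symm
  | neg _ h1 =>
    obtain ⟨c1, μ, hμ, hw1⟩ := h1
    refine ⟨continues_neg c1, fun p => -μ p, ?_, ?_⟩
    · intro p r hr
      have h1 := hμ p r hr
      rw [Finsupp.sum_neg_index]
      · show -_ = _
        rw [h1, Finsupp.sum, Finsupp.sum, ← Finset.sum_neg_distrib]
        refine Finset.sum_congr rfl fun a _ => ?_
        push_cast; ring
      · intro a; simp
    · intro w
      refine continues_congr ?_ (continues_neg (hw1 w))
      intro p r _
      exact (DSAux.weightPart_neg μ w p r).symm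
  | congr h _ h1 =>
    obtain ⟨c1, μ, hμ, hw1⟩ := h1
    refine ⟨continues_congr h c1, μ, ?_, hw1⟩
    intro p r hr
    rw [← h p r hr, hμ p r hr]

end Pool.Agent.HGC
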