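import Pool.Agent.HGC.Defs

/-!
Module LW: weight parts of spectra, and the closure properties of `LocW`.
-/

set_option autoImplicit false

open scoped BigOperators

namespace Pool.Agent.HGC

namespace LocWAux

/-- The value of a spectrum at `r`. -/
noncomputable def ev (c : ℂ →₀ ℤ) (r : ℕ) : ℂ := c.sum fun α m => (m : ℂ) * α ^ r

theorem ev_add (c d : ℂ →₀ ℤ) (r : ℕ) : ev (c + d) r = ev c r + ev d r := by
  unfold ev
  rw [Finsupp.sum_add_index']
  · intro a; simp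
  · intro a m n; push_cast; ring

theorem ev_neg (c : ℂ →₀ ℤ) (r : ℕ) : ev (-c) r = -ev c r := by
  unfold ev
  rw [Finsupp.sum_neg_index (by intro a; simp), ← Finsupp.sum_neg]
  refine Finsupp.sum_congr fun a _ => ?_
  push_cast; ring

theorem ev_zero (r : ℕ) : ev 0 r = 0 := Finsupp.sum_zero_index

theorem ev_single (a : ℂ) (m : ℤ) (r : ℕ) : ev (Finsupp.single a m) r = (m : ℂ) * a ^ r := by
  unfold ev
  rw [Finsupp.sum_single_index]
  simp

open Classical in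
/-- The part of weight `w`. -/
noncomputable def wt (p : ℕ) (w : ℤ) (c : ℂ →₀ ℤ) : ℂ →₀ ℤ :=
  c.filter fun α => ‖α‖ = (p : ℝ) ^ ((w : ℝ) / 2)

theorem weightPart_eq (μ : Nat.Primes → ℂ →₀ ℤ) (w : ℤ) (p : Nat.Primes) (r : ℕ) :
    weightPart μ w p r = ev (wt (p : ℕ) w (μ p)) r := rfl

theorem wt_apply_pos {p : ℕ} {w : ℤ} {a : ℂ} (h : ‖a‖ = (p : ℝ) ^ ((w : ℝ) / 2)) (c : ℂ →₀ ℤ) :
    wt p w c a = c a := by
  unfold wt
  rw [Finsupp.filter_apply, if_pos h]

theorem wt_apply_neg {p : ℕ} {w : ℤ} {a : ℂ} (h : ‖a‖ ≠ (p : ℝ) ^ ((w : ℝ) / 2)) (c : ℂ →₀ ℤ) :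
    wt p w c a = 0 := by
  unfold wt
  rw [Finsupp.filter_apply, if_neg h]

theorem wt_add (p : ℕ) (w : ℤ) (c d : ℂ →₀ ℤ) : wt p w (c + d) = wt p w c + wt p w d := by
  unfold wt
  exact Finsupp.filter_add

theorem wt_neg (p : ℕ) (w : ℤ) (c : ℂ →₀ ℤ) : wt p w (-c) = -wt p w c := by
  unfold wt
  exact Finsupp.filter_neg _ _

theorem wt_single_pos {p : ℕ} {w : ℤ} {a : ℂ} (h : ‖a‖ = (p : ℝ) ^ ((w : ℝ) / 2)) (m : ℤ) :
    wt p w (Finsupp.single a m) = Finsupp.single a m := by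
  unfold wt
  exact Finsupp.filter_single_of_pos _ h

theorem wt_single_neg {p : ℕ} {w : ℤ} {a : ℂ} (h : ‖a‖ ≠ (p : ℝ) ^ ((w : ℝ) / 2)) (m : ℤ) :
    wt p w (Finsupp.single a m) = 0 := by
  unfold wt
  exact Finsupp.filter_single_of_neg _ h

theorem wt_zero (p : ℕ) (w : ℤ) : wt p w 0 = 0 := by
  unfold wt
  exact Finsupp.filter_zero _

/-- Multiplication of all members of the spectrum by `t`. -/
noncomputable def scale (t : ℂ) (c : ℂ →₀ ℤ) : ℂ →₀ ℤ := c.mapDomain fun a => t * a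

theorem scale_add (t : ℂ) (c d : ℂ →₀ ℤ) : scale t (c + d) = scale t c + scale t d :=
  Finsupp.mapDomain_add

theorem scale_single (t a : ℂ) (m : ℤ) :
    scale t (Finsupp.single a m) = Finsupp.single (t * a) m := Finsupp.mapDomain_single

theorem scale_zero (t : ℂ) : scale t 0 = 0 := Finsupp.mapDomain_zero

theorem ev_scale (t : ℂ) (c : ℂ →₀ ℤ) (r : ℕ) : ev (scale t c) r = t ^ r * ev c r := by
  induction c using Finsupp.induction_linear with
  | zero => rw [scale_zero, ev_zero, mul_zero]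
  | add c d hc hd => rw [scale_add, ev_add, ev_add, hc, hd, mul_add]
  | single a m => rw [scale_single, ev_single, ev_single, mul_pow]; ring

theorem scale_wt {p : ℕ} (hp : p.Prime) (w : ℤ) (c : ℂ →₀ ℤ) :
    wt p w (scale (p : ℂ) c) = scale (p : ℂ) (wt p (w - 2) c) := by
  have hp0 : (0 : ℝ) < p := by exact_mod_cast hp.pos
  have key : ∀ a : ℂ, ‖(p : ℂ) * a‖ = (p : ℝ) ^ ((w : ℝ) / 2) ↔
      ‖a‖ = (p : ℝ) ^ (((w - 2 : ℤ) : ℝ) / 2) := by
    intro a
    have h1 : (p : ℝ) ^ ((w : ℝ) / 2) = p * (p : ℝ) ^ (((w - 2 : ℤ) : ℝ) / 2) := by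
      have : (w : ℝ) / 2 = 1 + ((w - 2 : ℤ) : ℝ) / 2 := by push_cast; ring
      rw [this, Real.rpow_add hp0, Real.rpow_one]
    rw [norm_mul, Complex.norm_natCast, h1]
    constructor
    · intro h; exact mul_left_cancel₀ hp0.ne' h
    · intro h; rw [h]
  induction c using Finsupp.induction_linear with
  | zero => rw [scale_zero, wt_zero, wt_zero, scale_zero]
  | add c d hc hd => rw [scale_add, wt_add, wt_add, scale_add, hc, hd]
  | single a m =>
    rw [scale_single]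
    by_cases h : ‖a‖ = (p : ℝ) ^ (((w - 2 : ℤ) : ℝ) / 2)
    · rw [wt_single_pos ((key a).2 h), wt_single_pos h, scale_single]
    · rw [wt_single_neg (fun h' => h ((key a).1 h')), wt_single_neg h, scale_zero]

theorem scale_scale (s t : ℂ) (c : ℂ →₀ ℤ) : scale s (scale t c) = scale (s * t) c := by
  induction c using Finsupp.induction_linear with
  | zero => simp only [scale_zero]
  | add c d hc hd => rw [scale_add, scale_add, scale_add, hc, hd]
  | single a m => rw [scale_single, scale_single, scale_single, mul_assoc]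

theorem scale_one (c : ℂ →₀ ℤ) : scale 1 c = c := by
  induction c using Finsupp.induction_linear with
  | zero => simp only [scale_zero]
  | add c d hc hd => rw [scale_add, hc, hd]
  | single a m => rw [scale_single, one_mul]

/-- The polynomial extracting one member of the spectrum. -/
theorem extract (c : ℂ →₀ ℤ) (a₀ : ℂ) : ∃ Q : Polynomial ℂ, Q.eval a₀ ≠ 0 ∧
    ∀ r, ∑ j ∈ Finset.range (Q.natDegree + 1), Q.coeff j * ev c (r + j) =
      (c a₀ : ℂ) * a₀ ^ r * Q.eval a₀ := by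
  classical
  refine ⟨∏ a ∈ c.support.erase a₀, (Polynomial.X - Polynomial.C a), ?_, fun r => ?_⟩
  · rw [Polynomial.eval_prod, Finset.prod_ne_zero_iff]
    intro a ha
    rw [Polynomial.eval_sub, Polynomial.eval_X, Polynomial.eval_C]
    exact sub_ne_zero.2 (Finset.ne_of_mem_erase ha).symm
  · set Q : Polynomial ℂ := ∏ a ∈ c.support.erase a₀, (Polynomial.X - Polynomial.C a) with hQ
    have h1 : ∀ j, Q.coeff j * ev c (r + j) =
        ∑ a ∈ c.support, (c a : ℂ) * a ^ r * (Q.coeff j * a ^ j) := by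
      intro j
      unfold ev
      rw [Finsupp.sum, Finset.mul_sum]
      refine Finset.sum_congr rfl fun a _ => ?_
      rw [pow_add]; ring
    simp only [h1]
    rw [Finset.sum_comm]
    have h2 : ∀ a ∈ c.support, ∑ j ∈ Finset.range (Q.natDegree + 1),
        (c a : ℂ) * a ^ r * (Q.coeff j * a ^ j) = (c a : ℂ) * a ^ r * Q.eval a := by
      intro a _
      rw [← Finset.mul_sum, Polynomial.eval_eq_sum_range]
    rw [Finset.sum_congr rfl h2]
    have h3 : ∀ a ∈ c.support, a ≠ a₀ → (c a : ℂ) * a ^ r * Q.eval a = 0 := by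
      intro a ha hne
      have : Q.eval a = 0 := by
        rw [hQ, Polynomial.eval_prod]
        refine Finset.prod_eq_zero (Finset.mem_erase.2 ⟨hne, ha⟩) ?_
        simp
      rw [this, mul_zero]
    by_cases h0 : a₀ ∈ c.support
    · rw [Finset.sum_eq_single a₀ h3 (fun h => absurd h0 h)]
    · rw [Finset.sum_eq_zero fun a ha => h3 a ha (fun h => h0 (h ▸ ha)),
        Finsupp.notMem_support_iff.1 h0]
      simp

theorem coeff_eq_zero {c : ℂ →₀ ℤ} (h : ∀ r, 1 ≤ r → ev c r = 0) {a : ℂ} (ha : a ≠ 0) :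
    c a = 0 := by
  obtain ⟨Q, hQ, hr⟩ := extract c a
  have h1 := hr 1
  rw [Finset.sum_eq_zero fun j _ => by rw [h (1 + j) (by omega), mul_zero]] at h1
  have h2 : (c a : ℂ) * a ^ 1 * Q.eval a = 0 := h1.symm
  rcases mul_eq_zero.1 h2 with h3 | h3
  · rcases mul_eq_zero.1 h3 with h4 | h4
    · exact_mod_cast h4
    · exact absurd (pow_eq_zero_iff (one_ne_zero)|>.1 h4) ha
  · exact absurd h3 hQ

theorem ev_wt_congr {p : ℕ} (hp : p.Prime) {c d : ℂ →₀ ℤ} (h : ∀ r, 1 ≤ r → ev c r = ev d r)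
    (w : ℤ) : wt p w c = wt p w d := by
  classical
  have h1 : ∀ a : ℂ, a ≠ 0 → c a = d a := by
    intro a ha
    have h2 : (c + -d) a = 0 := by
      refine coeff_eq_zero (fun r hr => ?_) ha
      rw [ev_add, ev_neg, h r hr]; ring
    have h3 : c a - d a = 0 := by simpa [sub_eq_add_neg] using h2
    exact sub_eq_zero.1 h3
  ext a
  by_cases ha : ‖a‖ = (p : ℝ) ^ ((w : ℝ) / 2)
  · rw [wt_apply_pos ha, wt_apply_pos ha]
    refine h1 a fun h0 => ?_
    rw [h0, norm_zero] at ha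
    have : (0 : ℝ) < (p : ℝ) ^ ((w : ℝ) / 2) :=
      Real.rpow_pos_of_pos (by exact_mod_cast hp.pos) _
    exact absurd ha this.ne
  · rw [wt_apply_neg ha, wt_apply_neg ha]

/-- Growth: no member of the spectrum is larger than the growth rate. -/
theorem coeff_eq_zero_of_growth {c : ℂ →₀ ℤ} {R : ℝ} (hR : 1 ≤ R)
    (h : ∀ r, 1 ≤ r → ‖ev c r‖ ≤ R ^ r) {a : ℂ} (ha : R < ‖a‖) : c a = 0 := by
  obtain ⟨Q, hQ, hr⟩ := extract c a
  by_contra hc
  set C : ℝ := ∑ j ∈ Finset.range (Q.natDegree + 1), ‖Q.coeff j‖ * R ^ j with hC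
  have hb : ∀ r, 1 ≤ r → ‖(c a : ℂ)‖ * ‖a‖ ^ r * ‖Q.eval a‖ ≤ C * R ^ r := by
    intro r h1
    rw [← norm_pow, ← norm_mul, ← norm_mul, ← hr r, hC, Finset.sum_mul]
    refine (norm_sum_le _ _).trans (Finset.sum_le_sum fun j _ => ?_)
    rw [norm_mul, mul_assoc]
    refine mul_le_mul_of_nonneg_left ?_ (norm_nonneg _)
    rw [mul_comm (R ^ j), ← pow_add]
    exact h (r + j) (by omega)
  have hA : 0 < ‖(c a : ℂ)‖ * ‖Q.eval a‖ := by
    refine mul_pos (norm_pos_iff.2 ?_) (norm_pos_iff.2 hQ)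
    exact_mod_cast hc
  have hRpos : 0 < R := lt_of_lt_of_le one_pos hR
  have hq : 1 < ‖a‖ / R := (one_lt_div hRpos).2 ha
  obtain ⟨n, hn⟩ := pow_unbounded_of_one_lt (C / (‖(c a : ℂ)‖ * ‖Q.eval a‖)) hq
  have h2 := hb (n + 1) (by omega)
  have h3 : (‖a‖ / R) ^ (n + 1) ≤ C / (‖(c a : ℂ)‖ * ‖Q.eval a‖) := by
    rw [div_pow, div_le_div_iff₀ (pow_pos hRpos _) hA]
    nlinarith [h2]
  have h4 : (‖a‖ / R) ^ n ≤ (‖a‖ / R) ^ (n + 1) := pow_le_pow_right₀ hq.le (Nat.le_succ n)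
  linarith

theorem wt_eq_zero_of_growth {p : ℕ} (hp : p.Prime) {c : ℂ →₀ ℤ} (B : ℕ)
    (h : ∀ r, 1 ≤ r → ‖ev c r‖ ≤ ((p : ℝ) ^ r) ^ B) {w : ℤ} (hw : 2 * (B : ℤ) < w) :
    wt p w c = 0 := by
  classical
  have hp1 : (1 : ℝ) < p := by exact_mod_cast hp.one_lt
  ext a
  by_cases ha : ‖a‖ = (p : ℝ) ^ ((w : ℝ) / 2)
  · rw [wt_apply_pos ha, Finsupp.zero_apply]
    refine coeff_eq_zero_of_growth (R := (p : ℝ) ^ B) (one_le_pow₀ hp1.le) (fun r hr => ?_) ?_
    · rw [← pow_mul, mul_comm, pow_mul]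
      exact h r hr
    · rw [ha, ← Real.rpow_natCast]
      refine Real.rpow_lt_rpow_of_exponent_lt hp1 ?_
      have : (2 * (B : ℝ)) < w := by exact_mod_cast hw
      linarith
  · rw [wt_apply_neg ha, Finsupp.zero_apply]

/-- `f` has a spectrum all whose weight parts continue. -/
def Sp (f : PF) : Prop := ∃ μ, IsSpectrum f μ ∧ ∀ w : ℤ, Continues (weightPart μ w)

theorem continues_zero (hC : Admissible Continues) : Continues fun _ _ => 0 :=
  hC.congr (fun p r _ => by ring) (hC.add hC.one (hC.neg hC.one))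

theorem Sp.add (hC : Admissible Continues) {f g : PF} (hf : Sp f) (hg : Sp g) :
    Sp fun p r => f p r + g p r := by
  obtain ⟨μ, h1, h2⟩ := hf
  obtain ⟨ν, h3, h4⟩ := hg
  refine ⟨fun p => μ p + ν p, fun p r hr => ?_, fun w => ?_⟩
  · show f p r + g p r = ev (μ p + ν p) r
    rw [ev_add, h1 p r hr, h3 p r hr]
    rfl
  · refine hC.congr (fun p r _ => ?_) (hC.add (h2 w) (h4 w))
    rw [weightPart_eq, weightPart_eq, weightPart_eq, wt_add, ev_add]

theorem Sp.neg (hC : Admissible Continues) {f : PF} (hf : Sp f) : Sp fun p r => -f p r := by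
  obtain ⟨μ, h1, h2⟩ := hf
  refine ⟨fun p => -μ p, fun p r hr => ?_, fun w => ?_⟩
  · show -f p r = ev (-μ p) r
    rw [ev_neg, h1 p r hr]
    rfl
  · refine hC.congr (fun p r _ => ?_) (hC.neg (h2 w))
    rw [weightPart_eq, weightPart_eq, wt_neg, ev_neg]

theorem Sp.congr {f g : PF} (h : ∀ p r, 1 ≤ r → f p r = g p r) (hf : Sp f) : Sp g := by
  obtain ⟨μ, h1, h2⟩ := hf
  exact ⟨μ, fun p r hr => by rw [← h p r hr]; exact h1 p r hr, h2⟩

theorem weightPart_scale (μ : Nat.Primes → ℂ →₀ ℤ) (w : ℤ) (p : Nat.Primes) (r : ℕ) :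
    weightPart (fun p => scale ((p : ℕ) : ℂ) (μ p)) w p r =
      ((p : ℕ) : ℂ) ^ r * weightPart μ (w - 2) p r := by
  rw [weightPart_eq, weightPart_eq, scale_wt p.2, ev_scale]

theorem Sp.mulq (hC : Admissible Continues) {f : PF} (hf : Sp f) :
    Sp fun p r => ((p : ℕ) : ℂ) ^ r * f p r := by
  obtain ⟨μ, h1, h2⟩ := hf
  refine ⟨fun p => scale ((p : ℕ) : ℂ) (μ p), fun p r hr => ?_, fun w => ?_⟩
  · show ((p : ℕ) : ℂ) ^ r * f p r = ev (scale ((p : ℕ) : ℂ) (μ p)) r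
    rw [ev_scale, h1 p r hr]
    rfl
  · exact hC.congr (fun p r _ => (weightPart_scale μ w p r).symm) (hC.mulq (h2 (w - 2)))

theorem Sp.divq (hC : Admissible Continues) {f : PF}
    (hf : Sp fun p r => ((p : ℕ) : ℂ) ^ r * f p r) : Sp f := by
  obtain ⟨μ, h1, h2⟩ := hf
  have hp0 : ∀ p : Nat.Primes, ((p : ℕ) : ℂ) ≠ 0 := fun p => by exact_mod_cast p.2.ne_zero
  refine ⟨fun p => scale (((p : ℕ) : ℂ)⁻¹) (μ p), fun p r hr => ?_, fun w => ?_⟩
  · show f p r = ev (scale (((p : ℕ) : ℂ)⁻¹) (μ p)) r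
    have h3 : ev (μ p) r = ((p : ℕ) : ℂ) ^ r * f p r := (h1 p r hr).symm
    rw [ev_scale, h3, ← mul_assoc, ← mul_pow, inv_mul_cancel₀ (hp0 p), one_pow, one_mul]
  · refine hC.divq (hC.congr (fun p r _ => ?_) (h2 (w + 2)))
    have h4 := weightPart_scale (fun p => scale (((p : ℕ) : ℂ)⁻¹) (μ p)) (w + 2) p r
    rw [show w + 2 - 2 = w by ring] at h4
    rw [← h4, weightPart_eq, weightPart_eq]
    simp only [scale_scale]
    rw [mul_inv_cancel₀ (hp0 p), scale_one]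

theorem Sp.mulq1 (hC : Admissible Continues) {f : PF} (hf : Sp f) :
    Sp fun p r => (((p : ℕ) : ℂ) ^ r - 1) * f p r :=
  Sp.congr (fun p r _ => by ring) (Sp.add hC (Sp.mulq hC hf) (Sp.neg hC hf))

theorem Sp.mulq1_pow (hC : Admissible Continues) {f : PF} (hf : Sp f) (e : ℕ) :
    Sp fun p r => (((p : ℕ) : ℂ) ^ r - 1) ^ e * f p r := by
  induction e with
  | zero => exact Sp.congr (fun p r _ => by ring) hf
  | succ e ih => exact Sp.congr (fun p r _ => by ring) (Sp.mulq1 hC ih)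

theorem Sp.one (hC : Admissible Continues) : Sp fun _ _ => 1 := by
  refine ⟨fun _ => Finsupp.single 1 1, fun p r _ => ?_, fun w => ?_⟩
  · show (1 : ℂ) = ev (Finsupp.single 1 1) r
    rw [ev_single]; simp
  · by_cases hw : w = 0
    · refine hC.congr (fun p r _ => ?_) hC.one
      rw [weightPart_eq, wt_single_pos, ev_single]
      · simp
      · rw [hw]; simp
    · refine hC.congr (fun p r _ => ?_) (continues_zero hC)
      rw [weightPart_eq, wt_single_neg, ev_zero]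
      rw [norm_one]
      intro h
      have hp1 : (1 : ℝ) < ((p : ℕ) : ℝ) := by exact_mod_cast p.2.one_lt
      rcases lt_or_gt_of_ne hw with h1 | h1
      · have h2 : ((p : ℕ) : ℝ) ^ ((w : ℝ) / 2) < 1 :=
          Real.rpow_lt_one_of_one_lt_of_neg hp1 (by
            have : (w : ℝ) < 0 := by exact_mod_cast h1
            linarith)
        exact absurd h h2.ne'
      · have h2 : 1 < ((p : ℕ) : ℝ) ^ ((w : ℝ) / 2) :=
          Real.one_lt_rpow hp1 (by
            have : (0 : ℝ) < w := by exact_mod_cast h1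
            linarith)
        exact absurd h h2.ne

end LocWAux

open LocWAux

/-- `LocW` is admissible, given that `Continues` is. -/
theorem admissible_locW_of (hC : Admissible Continues) : Admissible LocW where
  one := by
    obtain ⟨μ, h1, h2⟩ := Sp.congr (g := fun p r => (((p : ℕ) : ℂ) ^ r - 1) ^ 0 * (1 : ℂ))
      (fun p r _ => by ring) (Sp.one hC)
    exact ⟨0, μ, h1, h2⟩
  add := by
    rintro f g ⟨e, μ, h1, h2⟩ ⟨e', ν, h3, h4⟩
    have hf : Sp fun p r => (((p : ℕ) : ℂ) ^ r - 1) ^ e * f p r := ⟨μ, h1, h2⟩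
    have hg : Sp fun p r => (((p : ℕ) : ℂ) ^ r - 1) ^ e' * g p r := ⟨ν, h3, h4⟩
    obtain ⟨κ, h5, h6⟩ := Sp.congr
      (g := fun p r => (((p : ℕ) : ℂ) ^ r - 1) ^ (e + e') * (f p r + g p r))
      (fun p r _ => by ring) (Sp.add hC (Sp.mulq1_pow hC hf e') (Sp.mulq1_pow hC hg e))
    exact ⟨e + e', κ, h5, h6⟩
  neg := by
    rintro f ⟨e, μ, h1, h2⟩
    obtain ⟨κ, h5, h6⟩ := Sp.congr (g := fun p r => (((p : ℕ) : ℂ) ^ r - 1) ^ e * -f p r)
      (fun p r _ => by ring) (Sp.neg hC ⟨μ, h1, h2⟩)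
    exact ⟨e, κ, h5, h6⟩
  mulq := by
    rintro f ⟨e, μ, h1, h2⟩
    obtain ⟨κ, h5, h6⟩ := Sp.congr
      (g := fun p r => (((p : ℕ) : ℂ) ^ r - 1) ^ e * (((p : ℕ) : ℂ) ^ r * f p r))
      (fun p r _ => by ring) (Sp.mulq hC ⟨μ, h1, h2⟩)
    exact ⟨e, κ, h5, h6⟩
  divq := by
    rintro f ⟨e, μ, h1, h2⟩
    have h3 : Sp fun p r => (((p : ℕ) : ℂ) ^ r - 1) ^ e * (((p : ℕ) : ℂ) ^ r * f p r) :=
      ⟨μ, h1, h2⟩
    obtain ⟨κ, h5, h6⟩ := Sp.divq hC (f := fun p r => (((p : ℕ) : ℂ) ^ r - 1) ^ e * f p r)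
      (Sp.congr (fun p r _ => by ring) h3)
    exact ⟨e, κ, h5, h6⟩
  divq1 := by
    rintro f ⟨e, μ, h1, h2⟩
    have h3 : Sp fun p r => (((p : ℕ) : ℂ) ^ r - 1) ^ e * ((((p : ℕ) : ℂ) ^ r - 1) * f p r) :=
      ⟨μ, h1, h2⟩
    obtain ⟨κ, h5, h6⟩ := Sp.congr (g := fun p r => (((p : ℕ) : ℂ) ^ r - 1) ^ (e + 1) * f p r)
      (fun p r _ => by ring) h3
    exact ⟨e + 1, κ, h5, h6⟩
  congr := by
    rintro f g h ⟨e, μ, h1, h2⟩
    obtain ⟨κ, h5, h6⟩ := Sp.congr (g := fun p r => (((p : ℕ) : ℂ) ^ r - 1) ^ e * g p r)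
      (fun p r hr => by rw [h p r hr]) ⟨μ, h1, h2⟩
    exact ⟨e, κ, h5, h6⟩

namespace LocWAux

theorem final_aux (hC : Admissible Continues) (e : ℕ) : ∀ (f : PF) (B : ℕ),
    (∀ p r, 1 ≤ r → ‖f p r‖ ≤ (((p : ℕ) : ℝ) ^ r) ^ B) →
    Sp (fun p r => (((p : ℕ) : ℂ) ^ r - 1) ^ e * f p r) →
    ∀ μ : Nat.Primes → ℂ →₀ ℤ, IsSpectrum f μ → ∀ w : ℤ, Continues (weightPart μ w) := by
  induction e with
  | zero =>
    rintro f B - ⟨ν, h1, h2⟩ μ hμ w
    refine hC.congr (fun p r _ => ?_) (h2 w)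
    rw [weightPart_eq, weightPart_eq]
    congr 1
    refine ev_wt_congr p.2 (fun r hr => ?_) w
    have h3 : ev (ν p) r = (((p : ℕ) : ℂ) ^ r - 1) ^ 0 * f p r := (h1 p r hr).symm
    have h4 : ev (μ p) r = f p r := (hμ p r hr).symm
    rw [h3, h4]; ring
  | succ e ih =>
    intro f B hB hf μ hμ
    set f' : PF := fun p r => (((p : ℕ) : ℂ) ^ r - 1) * f p r with hf'
    set μ' : Nat.Primes → ℂ →₀ ℤ := fun p => scale ((p : ℕ) : ℂ) (μ p) + -μ p with hμ'
    have h1 : ∀ p r, 1 ≤ r → ‖f' p r‖ ≤ (((p : ℕ) : ℝ) ^ r) ^ (B + 1) := by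
      intro p r hr
      rw [hf', norm_mul, pow_succ, mul_comm]
      refine mul_le_mul (hB p r hr) ?_ (norm_nonneg _) (by positivity)
      have h2 : (1 : ℝ) ≤ ((p : ℕ) : ℝ) ^ r := one_le_pow₀ (by exact_mod_cast p.2.one_lt.le)
      have h3 : (((p : ℕ) : ℂ) ^ r - 1) = (((((p : ℕ) : ℝ) ^ r - 1 : ℝ)) : ℂ) := by push_cast; ring
      rw [h3, Complex.norm_real, Real.norm_eq_abs, abs_of_nonneg (by linarith)]
      linarith
    have h2 : IsSpectrum f' μ' := by
      intro p r hr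
      show f' p r = ev (scale ((p : ℕ) : ℂ) (μ p) + -μ p) r
      have h4 : ev (μ p) r = f p r := (hμ p r hr).symm
      rw [ev_add, ev_scale, ev_neg, h4, hf']; ring
    have h3 := ih f' (B + 1) h1 (Sp.congr (fun p r _ => by rw [hf']; ring) hf) μ' h2
    have h4 : ∀ w p r, weightPart μ' w p r =
        ((p : ℕ) : ℂ) ^ r * weightPart μ (w - 2) p r - weightPart μ w p r := by
      intro w p r
      rw [weightPart_eq, weightPart_eq, weightPart_eq, hμ']
      simp only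
      rw [wt_add, ev_add, scale_wt p.2, ev_scale, wt_neg, ev_neg]; ring
    have h5 : ∀ w : ℤ, 2 * (B : ℤ) < w → Continues (weightPart μ w) := by
      intro w hw
      refine hC.congr (fun p r _ => ?_) (continues_zero hC)
      rw [weightPart_eq, wt_eq_zero_of_growth p.2 B (fun r hr => ?_) hw, ev_zero]
      have h6 : ev (μ p) r = f p r := (hμ p r hr).symm
      rw [h6]
      exact hB p r hr
    have h6 : ∀ n : ℕ, ∀ w : ℤ, 2 * (B : ℤ) - 2 * n < w → Continues (weightPart μ w) := by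
      intro n
      induction n with
      | zero => intro w hw; exact h5 w (by simpa using hw)
      | succ n ihn =>
        intro w hw
        have h7 := ihn (w + 2) (by push_cast at hw; linarith)
        refine hC.divq (hC.congr (fun p r _ => ?_) (hC.add (h3 (w + 2)) h7))
        rw [h4 (w + 2) p r, show w + 2 - 2 = w by ring]; ring
    intro w
    refine h6 (2 * (B : ℤ) - w + 1).toNat w ?_
    have := Int.self_le_toNat (2 * (B : ℤ) - w + 1)
    nlinarith [Int.natCast_nonneg (2 * (B : ℤ) - w + 1).toNat, B.cast_nonneg (α := ℤ)]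

end LocWAux

/-- Weight parts of a bounded function in `LocW` continue, given that `Continues` is admissible. -/
theorem locW_final_of (hC : Admissible Continues) {f : PF} (B : ℕ)
    (hB : ∀ p r, 1 ≤ r → ‖f p r‖ ≤ (((p : ℕ) : ℝ) ^ r) ^ B)
    (hf : LocW f) (μ : Nat.Primes → ℂ →₀ ℤ) (hμ : IsSpectrum f μ) (w : ℤ) :
    Continues (weightPart μ w) := by
  obtain ⟨e, ν, h1, h2⟩ := hf
  exact LocWAux.final_aux hC e f B hB ⟨ν, h1, h2⟩ μ hμ w

end Pool.Agent.HGC
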