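import Mathlib

/-!
# Hypergraph cubics: definitions

`PF` = functions of prime powers.  `Continues f` = the function `exp (∑_p ∑_{r ≥ 1} f(p^r) p^{-rs} / r)`,
defined on a right half plane, has a meromorphic continuation to the whole plane.
-/

set_option autoImplicit false

open scoped BigOperators

namespace Pool.Agent.HGC

/-- Functions of prime powers: `f p r` is the value at `p ^ r`; only `r ≥ 1` is relevant. -/
abbrev PF := Nat.Primes → ℕ → ℂ

/-- The terms `f(p^r) p^{-rs} / r` of the double series over primes `p` and `r = x.2 + 1 ≥ 1`. -/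
noncomputable def term (f : PF) (s : ℂ) (x : Nat.Primes × ℕ) : ℂ :=
  f x.1 (x.2 + 1) * ((x.1 : ℕ) : ℂ) ^ (-(((x.2 + 1 : ℕ) : ℂ) * s)) / ((x.2 + 1 : ℕ) : ℂ)

/-- The Euler product `exp (∑_p ∑_{r ≥ 1} f(p^r) p^{-rs} / r)` converges absolutely on some right
half plane and has a meromorphic continuation to `ℂ`. -/
def Continues (f : PF) : Prop :=
  ∃ (σ : ℝ) (g : ℂ → ℂ), Meromorphic g ∧
    ∀ s : ℂ, σ < s.re → Summable (term f s) ∧ g s = Complex.exp (∑' x, term f s x)

/-- The function of prime powers given by a way `N` to count something over finite fields. -/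
noncomputable def countPF (N : (K : Type) → [Field K] → ℕ) : PF := fun p r =>
  haveI : Fact (p : ℕ).Prime := ⟨p.2⟩
  (N (GaloisField p r) : ℂ)

/-- The number of zeros over `K` of the cubic form `∑ x_i y_j z_k`, the sum over the edges `(i,j,k)`
of a `3`-partite `3`-uniform hypergraph `H`. -/
noncomputable def cubicCount {α β γ : Type} (H : Finset (α × β × γ)) (K : Type) [Field K] : ℕ :=
  Nat.card {v : (α → K) × (β → K) × (γ → K) //
    ∑ e ∈ H, v.1 e.1 * v.2.1 e.2.1 * v.2.2 e.2.2 = 0}

/-- Every `z`-vertex lies in at most `d` edges. -/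
def ZDeg {α β γ : Type} (d : ℕ) (H : Finset (α × β × γ)) : Prop :=
  ∀ k, {e | e ∈ H ∧ e.2.2 = k}.ncard ≤ d

/-- Every vertex (of each of the three kinds) lies in at most `d` edges. -/
def MaxDeg {α β γ : Type} (d : ℕ) (H : Finset (α × β × γ)) : Prop :=
  (∀ i, {e | e ∈ H ∧ e.1 = i}.ncard ≤ d) ∧ (∀ j, {e | e ∈ H ∧ e.2.1 = j}.ncard ≤ d) ∧ ZDeg d H

/-- The number of points over `K` of the affine scheme over `ℤ` given by the polynomials `P i`. -/
noncomputable def affCount {n m : ℕ} (P : Fin m → MvPolynomial (Fin n) ℤ) (K : Type) [Field K] : ℕ :=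
  Nat.card {x : Fin n → K // ∀ i, MvPolynomial.aeval x (P i) = 0}

/-- The number of points over `K` of the projective scheme over `ℤ` given by the homogeneous
polynomials `P i`. -/
noncomputable def projCount {n m : ℕ} (P : Fin m → MvPolynomial (Fin n) ℤ) (K : Type) [Field K] : ℕ :=
  Nat.card {v : Projectivization K (Fin n → K) // ∀ i, MvPolynomial.aeval v.rep (P i) = 0}

/-- `μ` is a spectrum of `f`: `f(p^r) = ∑_α μ_p(α) α^r` for all primes `p` and all `r ≥ 1`, with finitely
many `α` for each `p`. -/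
def IsSpectrum (f : PF) (μ : Nat.Primes → ℂ →₀ ℤ) : Prop :=
  ∀ p r, 1 ≤ r → f p r = (μ p).sum fun α m => (m : ℂ) * α ^ r

open Classical in
/-- The part of weight `w` of a spectrum: the sum of `μ_p(α) α^r` over the `α` with `|α| = p^{w/2}`. -/
noncomputable def weightPart (μ : Nat.Primes → ℂ →₀ ℤ) (w : ℤ) : PF := fun p r =>
  ((μ p).filter fun α => ‖α‖ = ((p : ℕ) : ℝ) ^ ((w : ℝ) / 2)).sum fun α m => (m : ℂ) * α ^ r

/-- A `3`-partite `3`-uniform hypergraph. -/
structure HG where
  /-- the number of `x`-vertices -/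
  a : ℕ
  /-- the number of `y`-vertices -/
  b : ℕ
  /-- the number of `z`-vertices -/
  c : ℕ
  /-- the edges -/
  edges : Finset (Fin a × Fin b × Fin c)

/-- The number of zeros of the cubic form of `h` over finite fields. -/
noncomputable def HG.count (h : HG) : PF := countPF (cubicCount h.edges)

/-- `f` has a spectrum, and every weight part of it continues. -/
def WeightsContinue (f : PF) : Prop :=
  ∃ μ, IsSpectrum f μ ∧ ∀ w : ℤ, Continues (weightPart μ w)

/-- Closure properties shared by the two predicates used below. -/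
structure Admissible (Q : PF → Prop) : Prop where
  one : Q fun _ _ => 1
  add : ∀ {f g : PF}, Q f → Q g → Q fun p r => f p r + g p r
  neg : ∀ {f : PF}, Q f → Q fun p r => -f p r
  mulq : ∀ {f : PF}, Q f → Q fun p r => ((p : ℕ) : ℂ) ^ r * f p r
  divq : ∀ {f : PF}, (Q fun p r => ((p : ℕ) : ℂ) ^ r * f p r) → Q f
  divq1 : ∀ {f : PF}, (Q fun p r => (((p : ℕ) : ℂ) ^ r - 1) * f p r) → Q f
  congr : ∀ {f g : PF}, (∀ p r, 1 ≤ r → f p r = g p r) → Q f → Q g

/-- `f` times a power of `q - 1` has a spectrum all whose weight parts continue. -/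
def LocW (f : PF) : Prop :=
  ∃ (e : ℕ) (μ : Nat.Primes → ℂ →₀ ℤ),
    IsSpectrum (fun p r => (((p : ℕ) : ℂ) ^ r - 1) ^ e * f p r) μ ∧ ∀ w : ℤ, Continues (weightPart μ w)

/-- Points of the bilinear system `∑_{(i,j,k) ∈ H} x_i y_j = 0` (one equation for each `k`). -/
noncomputable def bilCount {α β γ : Type} (H : Finset (α × β × γ)) (K : Type) [Field K] : ℕ :=
  Nat.card {v : (α → K) × (β → K) //
    ∀ z : γ → K, ∑ e ∈ H, v.1 e.1 * v.2 e.2.1 * z e.2.2 = 0}

/-- Points of the bilinear system with `x_i ≠ 0` for `i ∈ S` and `y_j ≠ 0` for `j ∈ T`. -/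
noncomputable def bilNZ {α β γ : Type} (H : Finset (α × β × γ)) (S : Finset α) (T : Finset β)
    (K : Type) [Field K] : ℕ :=
  Nat.card {v : (α → K) × (β → K) //
    (∀ z : γ → K, ∑ e ∈ H, v.1 e.1 * v.2 e.2.1 * z e.2.2 = 0) ∧
      (∀ i ∈ S, v.1 i ≠ 0) ∧ ∀ j ∈ T, v.2 j ≠ 0}

/-- A system of equations `v_A v_B = v_C + v_D` and `v_o = 1`. -/
structure Gadget (V J : Type) where
  o : V
  A : J → V
  B : J → V
  C : J → V
  D : J → V

/-- The number of solutions of a gadget system. -/
noncomputable def gadCount {V J : Type} (G : Gadget V J) (K : Type) [Field K] : ℕ :=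
  Nat.card {v : V → K // v G.o = 1 ∧ ∀ j, v (G.A j) * v (G.B j) = v (G.C j) + v (G.D j)}

/-- The functions `∑_j c_j (p^{k_j} χ_j(p))^r` with integers `c_j, k_j` and Dirichlet characters `χ_j`. -/
inductive DirSpan : PF → Prop
  | basic (k : ℤ) (N : ℕ) [NeZero N] (χ : DirichletCharacter ℂ N) :
      DirSpan fun p r => (((p : ℕ) : ℂ) ^ k * χ ((p : ℕ) : ZMod N)) ^ r
  | add {f g : PF} : DirSpan f → DirSpan g → DirSpan fun p r => f p r + g p r
  | neg {f : PF} : DirSpan f → DirSpan fun p r => -f p r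
  | congr {f g : PF} : (∀ p r, 1 ≤ r → f p r = g p r) → DirSpan f → DirSpan g

end Pool.Agent.HGC
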