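import Pool.Agent.HGC.Defs

/-! # Zeros of the cubic form and points of the bilinear system -/

set_option autoImplicit false

open scoped BigOperators

namespace Pool.Agent.HGC

open Classical in
/-- number of zeros of a linear form -/
theorem card_ker_form {V K : Type} [AddCommGroup V] [Field K] [Module K V] [Finite V] [Finite K]
    (φ : V →ₗ[K] K) :
    (Nat.card K : ℤ) * Nat.card {z : V // φ z = 0} =
      Nat.card V + (if φ = 0 then ((Nat.card K : ℤ) - 1) * Nat.card V else 0) := by
  by_cases h : φ = 0
  · subst h
    have : Nat.card {z : V // (0 : V →ₗ[K] K) z = 0} = Nat.card V := by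
      refine Nat.card_congr (Equiv.subtypeUnivEquiv fun z => by simp)
    rw [this, if_pos rfl]
    ring
  · rw [if_neg h, add_zero]
    have hsurj : Function.Surjective φ := LinearMap.surjective_of_ne_zero h
    have h1 := AddSubgroup.card_mul_index φ.toAddMonoidHom.ker
    rw [AddSubgroup.index_ker] at h1
    have h2 : φ.toAddMonoidHom.range = ⊤ := AddMonoidHom.range_eq_top.2 hsurj
    rw [h2] at h1
    have h3 : Nat.card (⊤ : AddSubgroup K) = Nat.card K := Nat.card_congr AddSubgroup.topEquiv.toEquiv
    have h4 : Nat.card φ.toAddMonoidHom.ker = Nat.card {z : V // φ z = 0} :=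
      Nat.card_congr (Equiv.subtypeEquivRight fun z => by simp [AddMonoidHom.mem_ker])
    rw [h3, h4] at h1
    rw [← h1]
    push_cast
    ring

/-- the linear form in `z` for fixed `x`, `y` -/
noncomputable def zform {α β γ : Type} (H : Finset (α × β × γ)) {K : Type} [Field K] (x : α → K)
    (y : β → K) : (γ → K) →ₗ[K] K :=
  ∑ e ∈ H, (x e.1 * y e.2.1) • LinearMap.proj e.2.2

theorem zform_apply {α β γ : Type} (H : Finset (α × β × γ)) {K : Type} [Field K] (x : α → K)
    (y : β → K) (z : γ → K) : zform H x y z = ∑ e ∈ H, x e.1 * y e.2.1 * z e.2.2 := by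
  simp [zform]

theorem cubic_bil {α β γ : Type} [Fintype α] [Fintype β] [Fintype γ] (H : Finset (α × β × γ))
    (K : Type) [Field K] [Finite K] :
    (Nat.card K : ℤ) * cubicCount H K =
      (Nat.card K : ℤ) ^ (Fintype.card α + Fintype.card β + Fintype.card γ) +
        (Nat.card K : ℤ) ^ Fintype.card γ * ((Nat.card K : ℤ) - 1) * bilCount H K := by
  classical
  have : Fintype K := Fintype.ofFinite K
  have e1 : cubicCount H K =
      ∑ v : (α → K) × (β → K), Nat.card {z : γ → K // zform H v.1 v.2 z = 0} := by
    unfold cubicCount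
    rw [← Nat.card_sigma]
    refine Nat.card_congr ?_
    refine
      { toFun := fun v => ⟨(v.1.1, v.1.2.1), ⟨v.1.2.2, by rw [zform_apply]; exact v.2⟩⟩
        invFun := fun v => ⟨(v.1.1, v.1.2, v.2.1), by
          have := v.2.2
          rw [zform_apply] at this
          exact this⟩
        left_inv := fun v => rfl
        right_inv := fun v => rfl }
  have e2 : bilCount H K = ∑ v : (α → K) × (β → K), (if zform H v.1 v.2 = 0 then 1 else 0) := by
    unfold bilCount
    rw [Nat.card_eq_fintype_card, Fintype.card_subtype, Finset.card_filter]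
    refine Finset.sum_congr rfl fun v _ => ?_
    have : (∀ z : γ → K, ∑ e ∈ H, v.1 e.1 * v.2 e.2.1 * z e.2.2 = 0) ↔ zform H v.1 v.2 = 0 := by
      constructor
      · intro h
        refine LinearMap.ext fun z => ?_
        rw [zform_apply]
        simpa using h z
      · intro h z
        rw [← zform_apply, h]
        rfl
    simp only [this]
  have hcard : (Nat.card (γ → K) : ℤ) = (Nat.card K : ℤ) ^ Fintype.card γ := by
    rw [Nat.card_fun, Nat.card_eq_fintype_card (α := γ)]
    push_cast
    rfl
  rw [e1, e2]
  push_cast
  rw [Finset.mul_sum]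
  simp_rw [card_ker_form, Finset.sum_add_distrib]
  rw [Finset.sum_const, Finset.card_univ, Fintype.card_prod, Finset.mul_sum, hcard]
  simp only [Fintype.card_fun, Nat.card_eq_fintype_card]
  congr 1
  · simp only [nsmul_eq_mul]
    push_cast
    ring
  · refine Finset.sum_congr rfl fun v _ => ?_
    split_ifs <;> ring

end Pool.Agent.HGC
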