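import Pool.Agent.HGC.Cont

/-! # The functions `(p^k χ(p))^r`: Dirichlet `L`-functions -/

set_option autoImplicit false

open scoped BigOperators Topology
open Filter

namespace Pool.Agent.HGC

theorem meromorphic_LFunction (N : ℕ) [NeZero N] (χ : DirichletCharacter ℂ N) :
    Meromorphic χ.LFunction := by
  intro s
  by_cases h : s ≠ 1 ∨ χ ≠ 1
  · by_cases hχ : χ ≠ 1
    · exact ((DirichletCharacter.differentiable_LFunction hχ).analyticAt s).meromorphicAt
    · have hs : s ≠ 1 := by tauto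
      have hd : DifferentiableOn ℂ χ.LFunction {z : ℂ | z ≠ 1} := fun z hz =>
        (DirichletCharacter.differentiableAt_LFunction χ z (Or.inl hz)).differentiableWithinAt
      exact (hd.analyticAt (isOpen_ne.mem_nhds hs)).meromorphicAt
  · push Not at h
    obtain ⟨rfl, rfl⟩ := h
    have h1 : MeromorphicAt (fun z : ℂ => DirichletCharacter.LFunctionTrivChar₁ N z / (z - 1)) 1 := by
      refine MeromorphicAt.fun_div ?_ (by fun_prop)
      exact ((DirichletCharacter.differentiable_LFunctionTrivChar₁ N).analyticAt 1).meromorphicAt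
    refine h1.congr ?_
    filter_upwards [self_mem_nhdsWithin] with z hz
    have hz' : z ≠ 1 := hz
    rw [DirichletCharacter.LFunctionTrivChar₁, Function.update_of_ne hz']
    field_simp [sub_ne_zero.2 hz']

theorem continues_char (k : ℤ) (N : ℕ) [NeZero N] (χ : DirichletCharacter ℂ N) :
    Continues fun p r => (((p : ℕ) : ℂ) ^ k * χ ((p : ℕ) : ZMod N)) ^ r := by
  refine ⟨k + 1, fun s => χ.LFunction (s + -(k : ℂ)),
    meromorphic_shift (meromorphic_LFunction N χ) _, fun s hs => ?_⟩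
  set t : ℂ := s - k with ht
  have ht1 : 1 < t.re := by
    simp only [ht, Complex.sub_re, Complex.intCast_re]
    linarith
  have hterm : ∀ x : Nat.Primes × ℕ,
      term (fun p r => (((p : ℕ) : ℂ) ^ k * χ ((p : ℕ) : ZMod N)) ^ r) s x =
        (χ (((x.1 : ℕ)) : ZMod N) * ((x.1 : ℕ) : ℂ) ^ (-t)) ^ (x.2 + 1) / ((x.2 : ℂ) + 1) := by
    intro x
    have hp := prime_cast_ne x.1
    simp only [term]
    have e1 : -t = (k : ℂ) + -s := by rw [ht]; ring
    have e2 : ((x.1 : ℕ) : ℂ) ^ (-(((x.2 + 1 : ℕ) : ℂ) * s)) =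
        (((x.1 : ℕ) : ℂ) ^ (-s)) ^ (x.2 + 1) := by
      rw [← Complex.cpow_nat_mul]
      congr 1
      ring
    rw [e1, Complex.cpow_add _ _ hp, Complex.cpow_intCast, e2]
    push_cast
    rw [← mul_pow]
    congr 2
    ring
  have hlt : ∀ p : Nat.Primes, ‖χ ((p : ℕ) : ZMod N) * ((p : ℕ) : ℂ) ^ (-t)‖ ≤
      ((p : ℕ) : ℝ) ^ (-t.re) := by
    intro p
    rw [norm_mul, Complex.norm_natCast_cpow_of_pos p.2.pos, Complex.neg_re]
    exact mul_le_of_le_one_left (by positivity) (χ.norm_le_one _)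
  have hhalf : ∀ p : Nat.Primes, ((p : ℕ) : ℝ) ^ (-t.re) ≤ 1 / 2 := by
    intro p
    have h2 : (2 : ℝ) ≤ ((p : ℕ) : ℝ) := by exact_mod_cast p.2.two_le
    calc ((p : ℕ) : ℝ) ^ (-t.re) ≤ ((p : ℕ) : ℝ) ^ (-1 : ℝ) :=
          Real.rpow_le_rpow_of_exponent_le (by linarith) (by linarith)
      _ = ((p : ℕ) : ℝ)⁻¹ := Real.rpow_neg_one _
      _ ≤ 1 / 2 := by
          rw [one_div]
          exact inv_anti₀ (by norm_num) h2
  have hnorm : ∀ p : Nat.Primes, ‖χ ((p : ℕ) : ZMod N) * ((p : ℕ) : ℂ) ^ (-t)‖ < 1 := fun p =>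
    lt_of_le_of_lt ((hlt p).trans (hhalf p)) (by norm_num)
  have hsum : Summable (term (fun p r => (((p : ℕ) : ℂ) ^ k * χ ((p : ℕ) : ZMod N)) ^ r) s) := by
    have hb : Summable fun x : Nat.Primes × ℕ =>
        ((x.1 : ℕ) : ℝ) ^ (-t.re) * (1 / 2 : ℝ) ^ x.2 := by
      have h1 : Summable fun p : Nat.Primes => ((p : ℕ) : ℝ) ^ (-t.re) :=
        Nat.Primes.summable_rpow.2 (by linarith)
      have h2 : Summable fun n : ℕ => (1 / 2 : ℝ) ^ n := summable_geometric_two
      exact h1.mul_of_nonneg h2 (fun p => by positivity) (fun n => by positivity)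
    refine Summable.of_norm_bounded hb fun x => ?_
    rw [hterm, norm_div, norm_pow]
    have h1 : (1 : ℝ) ≤ ‖((x.2 : ℂ) + 1)‖ := by
      have : ((x.2 : ℂ) + 1) = ((x.2 + 1 : ℕ) : ℂ) := by push_cast; ring
      rw [this, Complex.norm_natCast]
      exact_mod_cast Nat.succ_le_succ (Nat.zero_le _)
    refine (div_le_self (by positivity) h1).trans ?_
    rw [pow_succ, mul_comm]
    refine mul_le_mul (hlt x.1) (pow_le_pow_left₀ (norm_nonneg _) ((hlt x.1).trans (hhalf x.1)) _)
      (by positivity) (by positivity)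
  refine ⟨hsum, ?_⟩
  change χ.LFunction (s + -(k : ℂ)) = _
  rw [← sub_eq_add_neg, ← ht, DirichletCharacter.LFunction_eq_LSeries χ ht1,
    ← DirichletCharacter.LSeries_eulerProduct_exp_log χ ht1, hsum.tsum_prod]
  congr 1
  refine tsum_congr fun p => ?_
  rw [← (Complex.hasSum_taylorSeries_neg_log' (hnorm p)).tsum_eq]
  exact tsum_congr fun n => (hterm (p, n)).symm

theorem continues_one : Continues fun _ _ => 1 := by
  refine continues_congr (fun p r _ => ?_) (continues_char 0 1 1)
  have : ((p : ℕ) : ZMod 1) = 1 := Subsingleton.elim _ _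
  rw [this]
  simp

theorem admissible_continues : Admissible Continues where
  one := continues_one
  add := continues_add
  neg := continues_neg
  mulq := fun h => continues_mulq_iff.2 h
  divq := fun h => continues_mulq_iff.1 h
  divq1 := continues_divq1
  congr := continues_congr

end Pool.Agent.HGC
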