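import Pool.Agent.HGC.Defs

/-! # Module GH: a gadget system as a bilinear system of a hypergraph of maximal degree 3 -/

set_option autoImplicit false

open scoped BigOperators

namespace Pool.Agent.HGC

namespace CompileAux

variable {V J I : Type}

/-- denominators among the `x`-vertices -/
abbrev XD (V J I : Type) : Type := (V × I) ⊕ (J ⊕ Unit)
/-- numerators among the `x`-vertices -/
abbrev XN (V J I : Type) : Type := (V × I) ⊕ (J × Fin 3)
/-- denominators among the `y`-vertices -/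
abbrev YD (V J I : Type) : Type := (V × I) ⊕ J
/-- numerators among the `y`-vertices -/
abbrev YN (V J I : Type) : Type := (V × I) ⊕ J
/-- the `x`-vertices -/
abbrev AX (V J I : Type) : Type := XD V J I ⊕ XN V J I
/-- the `y`-vertices -/
abbrev BX (V J I : Type) : Type := YD V J I ⊕ YN V J I
/-- ports -/
abbrev Port (J : Type) : Type := (J × Fin 3) ⊕ (J ⊕ Unit)
/-- links -/
abbrev Link (V J I : Type) : Type := ((V × I) ⊕ (V × I)) ⊕ Port J
/-- the `z`-vertices -/
abbrev CX (V J I : Type) : Type := Link V J I ⊕ J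
/-- edge indices -/
abbrev EX (V J I : Type) : Type := (Link V J I × Bool) ⊕ (J × Fin 3)

/-- the variables compared with the three `x`-pairs of an equation -/
def wv (G : Gadget V J) (j : J) (k : Fin 3) : V := ![G.A j, G.C j, G.D j] k

/-- numerator on the `x`-side of a link -/
def ln (G : Gadget V J) (e : Port J ≃ I) (τ : Equiv.Perm I) : Link V J I → AX V J I
  | Sum.inl (Sum.inl (v, i)) => Sum.inr (Sum.inl (v, i))
  | Sum.inl (Sum.inr (v, i)) => Sum.inr (Sum.inl (v, τ i))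
  | Sum.inr (Sum.inl (j, k)) => Sum.inr (Sum.inr (j, k))
  | Sum.inr (Sum.inr (Sum.inl j)) => Sum.inr (Sum.inl (G.B j, e (Sum.inr (Sum.inl j))))
  | Sum.inr (Sum.inr (Sum.inr _)) => Sum.inl (Sum.inr (Sum.inr ()))

/-- denominator on the `x`-side of a link -/
def ld (G : Gadget V J) (e : Port J ≃ I) (τ : Equiv.Perm I) : Link V J I → XD V J I
  | Sum.inl (Sum.inl (v, i)) => Sum.inl (v, i)
  | Sum.inl (Sum.inr (v, i)) => Sum.inl (v, τ i)
  | Sum.inr (Sum.inl (j, _)) => Sum.inr (Sum.inl j)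
  | Sum.inr (Sum.inr (Sum.inl j)) => Sum.inl (G.B j, e (Sum.inr (Sum.inl j)))
  | Sum.inr (Sum.inr (Sum.inr _)) => Sum.inr (Sum.inr ())

/-- the `y`-side of a link (numerators and denominators have the same indices) -/
def ly (G : Gadget V J) (e : Port J ≃ I) : Link V J I → YD V J I
  | Sum.inl (Sum.inl (v, i)) => Sum.inl (v, i)
  | Sum.inl (Sum.inr (v, i)) => Sum.inl (v, i)
  | Sum.inr (Sum.inl (j, k)) => Sum.inl (wv G j k, e (Sum.inl (j, k)))
  | Sum.inr (Sum.inr (Sum.inl j)) => Sum.inr j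
  | Sum.inr (Sum.inr (Sum.inr _)) => Sum.inl (G.o, e (Sum.inr (Sum.inr ())))

/-- the `y`-vertices of the equation of `j` -/
def gy (j : J) : Fin 3 → BX V J I := ![Sum.inr (Sum.inr j), Sum.inl (Sum.inr j), Sum.inl (Sum.inr j)]

/-- the edges -/
def ed (G : Gadget V J) (e : Port J ≃ I) (τ : Equiv.Perm I) :
    EX V J I → AX V J I × BX V J I × CX V J I
  | Sum.inl (l, false) => (ln G e τ l, Sum.inl (ly G e l), Sum.inl l)
  | Sum.inl (l, true) => (Sum.inl (ld G e τ l), Sum.inr (ly G e l), Sum.inl l)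
  | Sum.inr (j, k) => (Sum.inr (Sum.inr (j, k)), gy j k, Sum.inr j)

theorem ed_injective (G : Gadget V J) (e : Port J ≃ I) (τ : Equiv.Perm I) :
    Function.Injective (ed G e τ) := by
  rintro (⟨l, _ | _⟩ | ⟨j, k⟩) (⟨l', _ | _⟩ | ⟨j', k'⟩) h
  all_goals simp only [ed, Prod.mk.injEq, Sum.inl.injEq, Sum.inr.injEq, reduceCtorEq,
    false_and, and_false] at h
  · rw [h.2.2]
  · rw [h.2.2]
  · rw [h.1.1, h.1.2]

/-- the link at a port of the chain of `v` at position `i`; the second component is the edge flag -/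
def portAt (e : Port J ≃ I) (i : I) (b : Bool) : EX V J I := Sum.inl (Sum.inr (e.symm i), b)

/-- the at most three edges at an `x`-vertex -/
def covA (e : Port J ≃ I) (τ : Equiv.Perm I) : AX V J I → Fin 3 → EX V J I
  | Sum.inl (Sum.inl (v, i)) => ![Sum.inl (Sum.inl (Sum.inl (v, i)), true),
      Sum.inl (Sum.inl (Sum.inr (v, τ.symm i)), true), portAt e i true]
  | Sum.inl (Sum.inr (Sum.inl j)) => fun k => Sum.inl (Sum.inr (Sum.inl (j, k)), true)
  | Sum.inl (Sum.inr (Sum.inr _)) => ![Sum.inl (Sum.inr (Sum.inr (Sum.inr ())), false),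
      Sum.inl (Sum.inr (Sum.inr (Sum.inr ())), true),
      Sum.inl (Sum.inr (Sum.inr (Sum.inr ())), true)]
  | Sum.inr (Sum.inl (v, i)) => ![Sum.inl (Sum.inl (Sum.inl (v, i)), false),
      Sum.inl (Sum.inl (Sum.inr (v, τ.symm i)), false), portAt e i false]
  | Sum.inr (Sum.inr (j, k)) => ![Sum.inl (Sum.inr (Sum.inl (j, k)), false), Sum.inr (j, k),
      Sum.inr (j, k)]

/-- the at most three edges at a `y`-vertex -/
def covB (e : Port J ≃ I) : BX V J I → Fin 3 → EX V J I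
  | Sum.inl (Sum.inl (v, i)) => ![Sum.inl (Sum.inl (Sum.inl (v, i)), false),
      Sum.inl (Sum.inl (Sum.inr (v, i)), false), portAt e i false]
  | Sum.inl (Sum.inr j) => ![Sum.inl (Sum.inr (Sum.inr (Sum.inl j)), false), Sum.inr (j, 1),
      Sum.inr (j, 2)]
  | Sum.inr (Sum.inl (v, i)) => ![Sum.inl (Sum.inl (Sum.inl (v, i)), true),
      Sum.inl (Sum.inl (Sum.inr (v, i)), true), portAt e i true]
  | Sum.inr (Sum.inr j) => ![Sum.inl (Sum.inr (Sum.inr (Sum.inl j)), true), Sum.inr (j, 0),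
      Sum.inr (j, 0)]

/-- the at most three edges at a `z`-vertex -/
def covC : CX V J I → Fin 3 → EX V J I
  | Sum.inl l => ![Sum.inl (l, false), Sum.inl (l, true), Sum.inl (l, true)]
  | Sum.inr j => fun k => Sum.inr (j, k)

theorem covA_spec (G : Gadget V J) (e : Port J ≃ I) (τ : Equiv.Perm I) (u : EX V J I) :
    ∃ k, covA e τ (ed G e τ u).1 k = u := by
  rcases u with ⟨((⟨v, i⟩ | ⟨v, i⟩) | ⟨j, k⟩ | j | x), _ | _⟩ | ⟨j, k⟩
  · exact ⟨0, rfl⟩
  · exact ⟨0, rfl⟩
  · exact ⟨1, by simp [ed, ln, covA]⟩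
  · exact ⟨1, by simp [ed, ld, covA]⟩
  · exact ⟨0, rfl⟩
  · exact ⟨k, rfl⟩
  · exact ⟨2, by simp [ed, ln, covA, portAt]⟩
  · exact ⟨2, by simp [ed, ld, covA, portAt]⟩
  · exact ⟨0, rfl⟩
  · exact ⟨1, rfl⟩
  · exact ⟨1, rfl⟩

theorem covB_spec (G : Gadget V J) (e : Port J ≃ I) (τ : Equiv.Perm I) (u : EX V J I) :
    ∃ k, covB e (ed G e τ u).2.1 k = u := by
  rcases u with ⟨((⟨v, i⟩ | ⟨v, i⟩) | ⟨j, k⟩ | j | x), _ | _⟩ | ⟨j, k⟩
  · exact ⟨0, rfl⟩
  · exact ⟨0, rfl⟩
  · exact ⟨1, rfl⟩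
  · exact ⟨1, rfl⟩
  · exact ⟨2, by simp [ed, ly, covB, portAt]⟩
  · exact ⟨2, by simp [ed, ly, covB, portAt]⟩
  · exact ⟨0, rfl⟩
  · exact ⟨0, rfl⟩
  · exact ⟨2, by simp [ed, ly, covB, portAt]⟩
  · exact ⟨2, by simp [ed, ly, covB, portAt]⟩
  · fin_cases k
    · exact ⟨1, rfl⟩
    · exact ⟨1, rfl⟩
    · exact ⟨2, rfl⟩

theorem covC_spec (G : Gadget V J) (e : Port J ≃ I) (τ : Equiv.Perm I) (u : EX V J I) :
    ∃ k, covC (ed G e τ u).2.2 k = u := by
  rcases u with ⟨l, _ | _⟩ | ⟨j, k⟩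
  · exact ⟨0, rfl⟩
  · exact ⟨1, rfl⟩
  · exact ⟨k, rfl⟩

theorem ncard_le_three {E X C : Type} (H : Set X) (f : E → X) (hH : ∀ x ∈ H, ∃ u, f u = x)
    (pr : X → C) (cov : C → Fin 3 → E) (hcov : ∀ u, ∃ k, cov (pr (f u)) k = u) (c : C) :
    {x | x ∈ H ∧ pr x = c}.ncard ≤ 3 := by
  have hsub : {x | x ∈ H ∧ pr x = c} ⊆ Set.range fun k : Fin 3 => f (cov c k) := by
    rintro x ⟨hx, hxc⟩
    obtain ⟨u, rfl⟩ := hH x hx
    obtain ⟨k, hk⟩ := hcov u
    exact ⟨k, by show f (cov c k) = f u; rw [← hxc, hk]⟩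
  calc {x | x ∈ H ∧ pr x = c}.ncard
      ≤ (Set.range fun k : Fin 3 => f (cov c k)).ncard :=
        Set.ncard_le_ncard hsub (Set.finite_range _)
    _ ≤ Nat.card (Fin 3) := by
        rw [← Set.image_univ, ← Set.ncard_univ]
        exact Set.ncard_image_le
    _ = 3 := by simp

variable [Fintype V] [Fintype J] [Fintype I]

/-- the hypergraph -/
def hg (G : Gadget V J) (e : Port J ≃ I) (τ : Equiv.Perm I) :
    Finset (AX V J I × BX V J I × CX V J I) :=
  Finset.univ.map ⟨ed G e τ, ed_injective G e τ⟩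

theorem hg_maxDeg (G : Gadget V J) (e : Port J ≃ I) (τ : Equiv.Perm I) :
    MaxDeg 3 (hg G e τ) := by
  have hH : ∀ x ∈ (hg G e τ : Set (AX V J I × BX V J I × CX V J I)), ∃ u, ed G e τ u = x := by
    intro x hx
    obtain ⟨u, -, hu⟩ := Finset.mem_map.1 (Finset.mem_coe.1 hx)
    exact ⟨u, hu⟩
  exact ⟨fun i => ncard_le_three _ (ed G e τ) hH (fun x => x.1) (covA e τ)
      (covA_spec G e τ) i,
    fun i => ncard_le_three _ (ed G e τ) hH (fun x => x.2.1) (covB e)
      (covB_spec G e τ) i,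
    fun i => ncard_le_three _ (ed G e τ) hH (fun x => x.2.2) covC
      (covC_spec G e τ) i⟩

variable {K : Type} [Field K]

/-- the equations of the bilinear system -/
def Eqs (G : Gadget V J) (e : Port J ≃ I) (τ : Equiv.Perm I) (x : AX V J I → K)
    (y : BX V J I → K) : Prop :=
  (∀ l : Link V J I, x (ln G e τ l) * y (Sum.inl (ly G e l)) +
    x (Sum.inl (ld G e τ l)) * y (Sum.inr (ly G e l)) = 0) ∧
  ∀ j : J, x (Sum.inr (Sum.inr (j, 0))) * y (Sum.inr (Sum.inr j)) +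
    x (Sum.inr (Sum.inr (j, 1))) * y (Sum.inl (Sum.inr j)) +
    x (Sum.inr (Sum.inr (j, 2))) * y (Sum.inl (Sum.inr j)) = 0

theorem sum_hg (G : Gadget V J) (e : Port J ≃ I) (τ : Equiv.Perm I) (x : AX V J I → K)
    (y : BX V J I → K) (z : CX V J I → K) :
    ∑ u ∈ hg G e τ, x u.1 * y u.2.1 * z u.2.2 =
      (∑ l : Link V J I, (x (ln G e τ l) * y (Sum.inl (ly G e l)) +
        x (Sum.inl (ld G e τ l)) * y (Sum.inr (ly G e l))) * z (Sum.inl l)) +
      ∑ j : J, (x (Sum.inr (Sum.inr (j, 0))) * y (Sum.inr (Sum.inr j)) +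
        x (Sum.inr (Sum.inr (j, 1))) * y (Sum.inl (Sum.inr j)) +
        x (Sum.inr (Sum.inr (j, 2))) * y (Sum.inl (Sum.inr j))) * z (Sum.inr j) := by
  unfold hg
  rw [Finset.sum_map, Fintype.sum_sum_type, Fintype.sum_prod_type, Fintype.sum_prod_type]
  congr 1
  · refine Finset.sum_congr rfl fun l _ => ?_
    rw [Fintype.sum_bool]
    show x (Sum.inl (ld G e τ l)) * y (Sum.inr (ly G e l)) * z (Sum.inl l) +
      x (ln G e τ l) * y (Sum.inl (ly G e l)) * z (Sum.inl l) = _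
    ring
  · refine Finset.sum_congr rfl fun j _ => ?_
    rw [Fin.sum_univ_three]
    show x (Sum.inr (Sum.inr (j, 0))) * y (Sum.inr (Sum.inr j)) * z (Sum.inr j) +
      x (Sum.inr (Sum.inr (j, 1))) * y (Sum.inl (Sum.inr j)) * z (Sum.inr j) +
      x (Sum.inr (Sum.inr (j, 2))) * y (Sum.inl (Sum.inr j)) * z (Sum.inr j) = _
    ring

theorem forall_iff_eqs (G : Gadget V J) (e : Port J ≃ I) (τ : Equiv.Perm I)
    (x : AX V J I → K) (y : BX V J I → K) :
    (∀ z : CX V J I → K, ∑ u ∈ hg G e τ, x u.1 * y u.2.1 * z u.2.2 = 0) ↔ Eqs G e τ x y := by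
  classical
  constructor
  · intro h
    refine ⟨fun l => ?_, fun j => ?_⟩
    · have := h (Pi.single (Sum.inl l) 1)
      rw [sum_hg, Finset.sum_eq_single l] at this
      · rw [Finset.sum_eq_zero] at this
        · simpa using this
        · intro j _
          rw [Pi.single_eq_of_ne (by simp), mul_zero]
      · intro l' _ hl'
        rw [Pi.single_eq_of_ne (by simpa using hl'), mul_zero]
      · intro h'
        exact absurd (Finset.mem_univ l) h'
    · have := h (Pi.single (Sum.inr j) 1)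
      rw [sum_hg, Finset.sum_eq_zero (s := (Finset.univ : Finset (Link V J I))),
        Finset.sum_eq_single j] at this
      · simpa using this
      · intro j' _ hj'
        rw [Pi.single_eq_of_ne (by simpa using hj'), mul_zero]
      · intro h'
        exact absurd (Finset.mem_univ j) h'
      · intro l _
        rw [Pi.single_eq_of_ne (by simp), mul_zero]
  · rintro ⟨h1, h2⟩ z
    rw [sum_hg]
    simp [h1, h2]

/-- solutions of a gadget system -/
abbrev GSol (G : Gadget V J) (K : Type) [Field K] : Type :=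
  {v : V → K // v G.o = 1 ∧ ∀ j, v (G.A j) * v (G.B j) = v (G.C j) + v (G.D j)}

/-- the `x`-vector of a solution -/
def mkX (G : Gadget V J) (p : XD V J I → Kˣ) (v : V → K) : AX V J I → K
  | Sum.inl s => p s
  | Sum.inr (Sum.inl (w, i)) => v w * p (Sum.inl (w, i))
  | Sum.inr (Sum.inr (j, k)) => v (wv G j k) * p (Sum.inr (Sum.inl j))

/-- the `y`-vector of a solution -/
def mkY (G : Gadget V J) (r : YD V J I → Kˣ) (v : V → K) : BX V J I → K
  | Sum.inl s => r s
  | Sum.inr (Sum.inl (w, i)) => -(v w * r (Sum.inl (w, i)))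
  | Sum.inr (Sum.inr j) => -(v (G.B j) * r (Sum.inr j))

omit [Fintype V] [Fintype J] [Fintype I] in
theorem mk_eqs (G : Gadget V J) (e : Port J ≃ I) (τ : Equiv.Perm I) (p : XD V J I → Kˣ)
    (r : YD V J I → Kˣ) (v : V → K) (h1 : v G.o = 1)
    (h2 : ∀ j, v (G.A j) * v (G.B j) = v (G.C j) + v (G.D j)) :
    Eqs G e τ (mkX G p v) (mkY G r v) := by
  refine ⟨?_, ?_⟩
  · rintro ((⟨w, i⟩ | ⟨w, i⟩) | ⟨j, k⟩ | j | x)
    · simp only [ln, ld, ly, mkX, mkY]; ring
    · simp only [ln, ld, ly, mkX, mkY]; ring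
    · simp only [ln, ld, ly, mkX, mkY]; ring
    · simp only [ln, ld, ly, mkX, mkY]; ring
    · simp only [ln, ld, ly, mkX, mkY]; rw [h1]; ring
  · intro j
    simp only [mkX, mkY]
    have e0 : wv G j 0 = G.A j := rfl
    have e1 : wv G j 1 = G.C j := rfl
    have e2 : wv G j 2 = G.D j := rfl
    rw [e0, e1, e2]
    linear_combination (-(p (Sum.inr (Sum.inl j)) : K) * r (Sum.inr j)) * h2 j

omit [Fintype V] [Fintype J] [Fintype I] in
theorem eqs_values (G : Gadget V J) (e : Port J ≃ I) (τ : Equiv.Perm I)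
    (hτ : ∀ f : I → K, (∀ i, f (τ i) = f i) → ∀ i j, f i = f j)
    (x : AX V J I → K) (y : BX V J I → K) (h : Eqs G e τ x y)
    (hx : ∀ s, x (Sum.inl s) ≠ 0) (hy : ∀ s, y (Sum.inl s) ≠ 0) (i₀ : I) (v : V → K)
    (hv : ∀ w, v w = x (Sum.inr (Sum.inl (w, i₀))) / x (Sum.inl (Sum.inl (w, i₀)))) :
    (∀ w i, x (Sum.inr (Sum.inl (w, i))) = v w * x (Sum.inl (Sum.inl (w, i)))) ∧
    (∀ w i, y (Sum.inr (Sum.inl (w, i))) = -(v w * y (Sum.inl (Sum.inl (w, i))))) ∧
    (∀ j k, x (Sum.inr (Sum.inr (j, k))) = v (wv G j k) * x (Sum.inl (Sum.inr (Sum.inl j)))) ∧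
    (∀ j, y (Sum.inr (Sum.inr j)) = -(v (G.B j) * y (Sum.inl (Sum.inr j)))) ∧
    v G.o = 1 ∧ ∀ j, v (G.A j) * v (G.B j) = v (G.C j) + v (G.D j) := by
  obtain ⟨hl, hj⟩ := h
  -- values of the pairs
  have hYX : ∀ w i, -(y (Sum.inr (Sum.inl (w, i))) / y (Sum.inl (Sum.inl (w, i)))) =
      x (Sum.inr (Sum.inl (w, i))) / x (Sum.inl (Sum.inl (w, i))) := by
    intro w i
    have h1 := hl (Sum.inl (Sum.inl (w, i)))
    simp only [ln, ld, ly] at h1
    have h2 := hx (Sum.inl (w, i))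
    have h3 := hy (Sum.inl (w, i))
    rw [eq_div_iff h2, neg_mul, div_mul_eq_mul_div, neg_eq_iff_eq_neg, div_eq_iff h3]
    linear_combination h1
  have hYX' : ∀ w i, -(y (Sum.inr (Sum.inl (w, i))) / y (Sum.inl (Sum.inl (w, i)))) =
      x (Sum.inr (Sum.inl (w, τ i))) / x (Sum.inl (Sum.inl (w, τ i))) := by
    intro w i
    have h1 := hl (Sum.inl (Sum.inr (w, i)))
    simp only [ln, ld, ly] at h1
    have h2 := hx (Sum.inl (w, τ i))
    have h3 := hy (Sum.inl (w, i))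
    rw [eq_div_iff h2, neg_mul, div_mul_eq_mul_div, neg_eq_iff_eq_neg, div_eq_iff h3]
    linear_combination h1
  have hXc : ∀ w i, x (Sum.inr (Sum.inl (w, i))) / x (Sum.inl (Sum.inl (w, i))) = v w := by
    intro w i
    rw [hv w]
    exact hτ (fun i => x (Sum.inr (Sum.inl (w, i))) / x (Sum.inl (Sum.inl (w, i))))
      (fun i => (hYX' w i).symm.trans (hYX w i)) i i₀
  have c1 : ∀ w i, x (Sum.inr (Sum.inl (w, i))) = v w * x (Sum.inl (Sum.inl (w, i))) := by
    intro w i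
    rw [← hXc w i, div_mul_cancel₀ _ (hx (Sum.inl (w, i)))]
  have c2 : ∀ w i, y (Sum.inr (Sum.inl (w, i))) = -(v w * y (Sum.inl (Sum.inl (w, i)))) := by
    intro w i
    have h1 := (hYX w i).trans (hXc w i)
    rw [← h1, neg_mul, neg_neg, div_mul_cancel₀ _ (hy (Sum.inl (w, i)))]
  have c3 : ∀ j k, x (Sum.inr (Sum.inr (j, k))) =
      v (wv G j k) * x (Sum.inl (Sum.inr (Sum.inl j))) := by
    intro j k
    have h1 := hl (Sum.inr (Sum.inl (j, k)))
    simp only [ln, ld, ly] at h1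
    rw [c2] at h1
    have h3 := hy (Sum.inl (wv G j k, e (Sum.inl (j, k))))
    apply mul_right_cancel₀ h3
    linear_combination h1
  have c4 : ∀ j, y (Sum.inr (Sum.inr j)) = -(v (G.B j) * y (Sum.inl (Sum.inr j))) := by
    intro j
    have h1 := hl (Sum.inr (Sum.inr (Sum.inl j)))
    simp only [ln, ld, ly] at h1
    rw [c1] at h1
    have h3 := hx (Sum.inl (G.B j, e (Sum.inr (Sum.inl j))))
    apply mul_left_cancel₀ h3
    linear_combination h1
  have c5 : v G.o = 1 := by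
    have h1 := hl (Sum.inr (Sum.inr (Sum.inr ())))
    simp only [ln, ld, ly] at h1
    rw [c2] at h1
    have h2 := hx (Sum.inr (Sum.inr ()))
    have h3 := hy (Sum.inl (G.o, e (Sum.inr (Sum.inr ()))))
    apply mul_right_cancel₀ (mul_ne_zero h2 h3)
    linear_combination -h1
  refine ⟨c1, c2, c3, c4, c5, fun j => ?_⟩
  have h1 := hj j
  rw [c3, c3, c3, c4] at h1
  have e0 : wv G j 0 = G.A j := rfl
  have e1 : wv G j 1 = G.C j := rfl
  have e2 : wv G j 2 = G.D j := rfl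
  rw [e0, e1, e2] at h1
  have h2 := hx (Sum.inr (Sum.inl j))
  have h3 := hy (Sum.inr j)
  apply mul_right_cancel₀ (mul_ne_zero h2 h3)
  linear_combination -h1

/-- the solutions of the bilinear system with nonzero denominators -/
abbrev BSol (G : Gadget V J) (e : Port J ≃ I) (τ : Equiv.Perm I) (K : Type) [Field K] : Type :=
  {v : (AX V J I → K) × (BX V J I → K) // Eqs G e τ v.1 v.2 ∧
    (∀ s, v.1 (Sum.inl s) ≠ 0) ∧ ∀ s, v.2 (Sum.inl s) ≠ 0}

/-- the bijection -/
noncomputable def solEquiv (G : Gadget V J) (e : Port J ≃ I) (τ : Equiv.Perm I)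
    (hτ : ∀ f : I → K, (∀ i, f (τ i) = f i) → ∀ i j, f i = f j) (i₀ : I) :
    ((XD V J I → Kˣ) × (YD V J I → Kˣ)) × GSol G K ≃ BSol G e τ K where
  toFun u := ⟨(mkX G u.1.1 u.2.1, mkY G u.1.2 u.2.1),
    mk_eqs G e τ u.1.1 u.1.2 u.2.1 u.2.2.1 u.2.2.2,
    fun s => (u.1.1 s).ne_zero, fun s => (u.1.2 s).ne_zero⟩
  invFun w := ⟨(fun s => Units.mk0 (w.1.1 (Sum.inl s)) (w.2.2.1 s),
      fun s => Units.mk0 (w.1.2 (Sum.inl s)) (w.2.2.2 s)),
    ⟨fun v => w.1.1 (Sum.inr (Sum.inl (v, i₀))) / w.1.1 (Sum.inl (Sum.inl (v, i₀))), by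
      obtain ⟨-, -, -, -, h5, h6⟩ := eqs_values G e τ hτ w.1.1 w.1.2 w.2.1 w.2.2.1 w.2.2.2 i₀ _
        (fun _ => rfl)
      exact ⟨h5, h6⟩⟩⟩
  left_inv := by
    rintro ⟨⟨p, r⟩, ⟨v, hv1, hv2⟩⟩
    refine Prod.ext (Prod.ext ?_ ?_) ?_
    · funext s
      exact Units.ext rfl
    · funext s
      exact Units.ext rfl
    · apply Subtype.ext
      funext w
      show v w * (p (Sum.inl (w, i₀)) : K) / (p (Sum.inl (w, i₀)) : K) = v w
      rw [mul_div_cancel_right₀ _ (Units.ne_zero _)]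
  right_inv := by
    rintro ⟨⟨x, y⟩, h, hx, hy⟩
    obtain ⟨c1, c2, c3, c4, -, -⟩ := eqs_values G e τ hτ x y h hx hy i₀ _ (fun _ => rfl)
    apply Subtype.ext
    refine Prod.ext ?_ ?_
    · funext a
      rcases a with s | ⟨w, i⟩ | ⟨j, k⟩
      · rfl
      · exact (c1 w i).symm
      · exact (c3 j k).symm
    · funext b
      rcases b with s | ⟨w, i⟩ | j
      · rfl
      · exact (c2 w i).symm
      · exact (c4 j).symm

theorem fin_invariant {N : ℕ} {Z : Type} (f : Fin (N + 1) → Z)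
    (hf : ∀ i, f (Equiv.addRight (1 : Fin (N + 1)) i) = f i) (i j : Fin (N + 1)) :
    f i = f j := by
  have h : ∀ i : Fin (N + 1), f i = f 0 := by
    intro i
    induction i using Fin.induction with
    | zero => rfl
    | succ i ih =>
      rw [← ih, ← hf i.castSucc]
      show f i.succ = f (i.castSucc + 1)
      rw [Fin.coeSucc_eq_succ]
  rw [h i, h j]

end CompileAux

open CompileAux in
theorem gadget_compile {V J : Type} [Fintype V] [Fintype J] (G : Gadget V J) :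
    ∃ (α β γ : Type) (_ : Fintype α) (_ : Fintype β) (_ : Fintype γ) (H : Finset (α × β × γ))
      (S : Finset α) (T : Finset β), MaxDeg 3 H ∧
        ∀ (K : Type) [Field K] [Finite K],
          bilNZ H S T K = (Nat.card K - 1) ^ (S.card + T.card) * gadCount G K := by
  classical
  set N : ℕ := Fintype.card J * 3 + Fintype.card J with hN
  have hcard : Fintype.card (Port J) = N + 1 := by
    simp [Port, hN, Fintype.card_sum, Fintype.card_prod]
    ring
  let e : Port J ≃ Fin (N + 1) := Fintype.equivFinOfCardEq hcard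
  let τ : Equiv.Perm (Fin (N + 1)) := Equiv.addRight 1
  refine ⟨AX V J (Fin (N + 1)), BX V J (Fin (N + 1)), CX V J (Fin (N + 1)), inferInstance,
    inferInstance, inferInstance, hg G e τ, Finset.univ.map ⟨Sum.inl, Sum.inl_injective⟩,
    Finset.univ.map ⟨Sum.inl, Sum.inl_injective⟩, hg_maxDeg G e τ, ?_⟩
  intro K _ _
  have h1 : bilNZ (hg G e τ) (Finset.univ.map ⟨Sum.inl, Sum.inl_injective⟩)
      (Finset.univ.map ⟨Sum.inl, Sum.inl_injective⟩) K = Nat.card (BSol G e τ K) := by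
    unfold bilNZ
    refine Nat.card_congr (Equiv.subtypeEquivRight fun v => ?_)
    rw [forall_iff_eqs]
    simp
  rw [h1, ← Nat.card_congr (solEquiv (K := K) G e τ (fun f hf => fin_invariant f hf) 0),
    Nat.card_prod, Nat.card_prod, Nat.card_fun, Nat.card_fun]
  have hu : Nat.card Kˣ = Nat.card K - 1 := Nat.card_units K
  rw [hu, ← pow_add, Finset.card_map, Finset.card_map, Finset.card_univ, Finset.card_univ,
    Nat.card_eq_fintype_card (α := XD V J (Fin (N + 1))),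
    Nat.card_eq_fintype_card (α := YD V J (Fin (N + 1)))]
  rfl

end Pool.Agent.HGC
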