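import Pool.Agent.HGC.DirSpanMul

/-! Module HM: the number of homomorphisms from a finitely generated abelian group to `F_q^*`. -/

set_option autoImplicit false

open scoped BigOperators

namespace Pool.Agent.HGC

namespace HomAux

/-- `#Hom(M, K^*)` is in the span. -/
def P (M : Type) [AddCommGroup M] : Prop :=
  DirSpan (countPF fun K _ => Nat.card (M →+ Additive Kˣ))

theorem card_units (p : Nat.Primes) (r : ℕ) (hr : 1 ≤ r) :
    haveI : Fact (p : ℕ).Prime := ⟨p.2⟩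
    Nat.card (GaloisField p r)ˣ = (p : ℕ) ^ r - 1 := by
  have : Fact (p : ℕ).Prime := ⟨p.2⟩
  classical
  have : Fintype (GaloisField p r) := Fintype.ofFinite _
  rw [Nat.card_eq_fintype_card, Fintype.card_units, ← Nat.card_eq_fintype_card,
    GaloisField.card _ _ (by omega)]

theorem P_int : P ℤ := by
  unfold P
  refine DirSpan.congr ?_ (DirSpan.sub (DirSpan.qpow 1) DirSpan.one)
  intro p r hr
  have : Fact (p : ℕ).Prime := ⟨p.2⟩
  show (((p : ℕ) : ℂ) ^ r) ^ (1 : ℤ) - 1 = ((Nat.card (ℤ →+ Additive (GaloisField p r)ˣ) : ℕ) : ℂ)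
  rw [← Nat.card_congr (zmultiplesHom (Additive (GaloisField p r)ˣ)),
    Nat.card_congr Additive.toMul, card_units p r hr, Nat.cast_sub (Nat.one_le_pow _ _ p.2.pos)]
  push_cast
  rw [zpow_one]

theorem dirSpan_gcd (d : ℕ) (hd : 0 < d) :
    DirSpan fun p r => ((d.gcd ((p : ℕ) ^ r - 1) : ℕ) : ℂ) := by
  have key : ∀ e : ℕ, e ∈ d.divisors → DirSpan fun p r =>
      if e ∣ (p : ℕ) ^ r - 1 then (e.totient : ℂ) else 0 := by
    intro e he
    have he0 : NeZero e := ⟨(Nat.pos_of_mem_divisors he).ne'⟩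
    refine DirSpan.congr ?_ (DirSpan.sum (Finset.univ : Finset (DirichletCharacter ℂ e))
      (fun χ p r => (((p : ℕ) : ℂ) ^ (0 : ℤ) * χ ((p : ℕ) : ZMod e)) ^ r)
      fun χ _ => DirSpan.basic 0 e χ)
    intro p r hr
    have h1 : ∀ χ : DirichletCharacter ℂ e,
        (((p : ℕ) : ℂ) ^ (0 : ℤ) * χ ((p : ℕ) : ZMod e)) ^ r = χ ((((p : ℕ) ^ r : ℕ) : ZMod e)) := by
      intro χ
      rw [zpow_zero, one_mul, Nat.cast_pow, map_pow]
    simp only [h1]
    rw [DirichletCharacter.sum_characters_eq]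
    have h2 : ((((p : ℕ) ^ r : ℕ) : ZMod e) = 1) ↔ e ∣ (p : ℕ) ^ r - 1 := by
      rw [← Nat.cast_one, ZMod.natCast_eq_natCast_iff, Nat.ModEq.comm,
        Nat.modEq_iff_dvd' (Nat.one_le_pow _ _ p.2.pos)]
    simp only [h2]
  refine DirSpan.congr ?_ (DirSpan.sum d.divisors _ key)
  intro p r hr
  have h3 : ((∑ e ∈ (d.gcd ((p : ℕ) ^ r - 1)).divisors, e.totient : ℕ) : ℂ) =
      ((d.gcd ((p : ℕ) ^ r - 1) : ℕ) : ℂ) := by
    rw [Nat.sum_totient]
  rw [← h3, ← Finset.sum_filter]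
  push_cast
  refine Finset.sum_congr ?_ fun _ _ => rfl
  have hd0 : d.gcd ((p : ℕ) ^ r - 1) ≠ 0 := (Nat.gcd_pos_of_pos_left _ hd).ne'
  ext e
  simp only [Finset.mem_filter, Nat.mem_divisors, Nat.dvd_gcd_iff]
  constructor
  · rintro ⟨⟨a, -⟩, b⟩
    exact ⟨⟨a, b⟩, hd0⟩
  · rintro ⟨⟨a, b⟩, -⟩
    exact ⟨⟨a, hd.ne'⟩, b⟩

theorem P_zmod (d : ℕ) (hd : 0 < d) : P (ZMod d) := by
  unfold P
  refine DirSpan.congr ?_ (dirSpan_gcd d hd)
  intro p r hr
  have : Fact (p : ℕ).Prime := ⟨p.2⟩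
  show ((d.gcd ((p : ℕ) ^ r - 1) : ℕ) : ℂ) =
    ((Nat.card (ZMod d →+ Additive (GaloisField p r)ˣ) : ℕ) : ℂ)
  congr 1
  rw [← Nat.card_congr (ZMod.lift d (A := Additive (GaloisField p r)ˣ))]
  have h1 := IsCyclic.card_powMonoidHom_ker (G := (GaloisField p r)ˣ) d
  rw [card_units p r hr] at h1
  rw [Nat.gcd_comm, ← h1]
  refine Nat.card_congr ⟨fun u => ⟨zmultiplesHom _ (Additive.ofMul u.1), ?_⟩,
    fun f => ⟨(f.1 1).toMul, ?_⟩, ?_, ?_⟩
  · have := u.2
    rw [MonoidHom.mem_ker, powMonoidHom_apply] at this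
    simp only [zmultiplesHom_apply, natCast_zsmul]
    rw [← ofMul_pow, this, ofMul_one]
  · rw [MonoidHom.mem_ker, powMonoidHom_apply]
    have h := f.2
    have h2 : f.1 ((d : ℕ) : ℤ) = d • f.1 1 := by
      rw [← map_nsmul, nsmul_one]
    rw [h2] at h
    exact h
  · intro u
    ext
    simp
  · intro f
    apply Subtype.ext
    ext
    simp

theorem P_congr {M N : Type} [AddCommGroup M] [AddCommGroup N] (e : M ≃+ N) (h : P M) : P N := by
  unfold P at h ⊢
  refine DirSpan.congr ?_ h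
  intro p r hr
  unfold countPF
  congr 1
  exact Nat.card_congr
    ⟨fun f => f.comp e.symm.toAddMonoidHom, fun f => f.comp e.toAddMonoidHom,
      fun f => by ext; simp, fun f => by ext; simp⟩

theorem P_prod {M N : Type} [AddCommGroup M] [AddCommGroup N] (h1 : P M) (h2 : P N) :
    P (M × N) := by
  unfold P at h1 h2 ⊢
  refine DirSpan.congr ?_ (DirSpan.mul h1 h2)
  intro p r hr
  unfold countPF
  rw [← Nat.cast_mul, ← Nat.card_prod]
  congr 1
  exact Nat.card_congr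
    ⟨fun f => f.1.coprod f.2, fun f => (f.comp (AddMonoidHom.inl _ _), f.comp (AddMonoidHom.inr _ _)),
      fun f => by ext <;> simp, fun f => by ext <;> simp⟩

theorem P_finsupp (n : ℕ) : P (Fin n →₀ ℤ) := by
  unfold P
  refine DirSpan.congr ?_ (DirSpan.prod (Finset.univ : Finset (Fin n))
    (fun _ => countPF fun K _ => Nat.card (ℤ →+ Additive Kˣ)) fun _ _ => P_int)
  intro p r hr
  unfold countPF
  rw [← Nat.cast_prod, ← Nat.card_pi]
  congr 1
  exact Nat.card_congr Finsupp.liftAddHom.toEquiv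

open scoped DirectSum in
theorem P_directSum {ι : Type} [Fintype ι] (d : ι → ℕ) (hd : ∀ i, 0 < d i) :
    P (⨁ i, ZMod (d i)) := by
  classical
  unfold P
  refine DirSpan.congr ?_ (DirSpan.prod (Finset.univ : Finset ι)
    (fun i => countPF fun K _ => Nat.card (ZMod (d i) →+ Additive Kˣ)) fun i _ => P_zmod (d i) (hd i))
  intro p r hr
  unfold countPF
  rw [← Nat.cast_prod, ← Nat.card_pi]
  congr 1
  exact Nat.card_congr DFinsupp.liftAddHom.toEquiv

end HomAux

theorem dirSpan_hom (M : Type) [AddCommGroup M] [Module.Finite ℤ M] :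
    DirSpan (countPF fun K _ => Nat.card (M →+ Additive Kˣ)) := by
  have : AddGroup.FG M := Module.Finite.iff_addGroup_fg.mp inferInstance
  obtain ⟨n, ι, hι, p, hp, e, ⟨f⟩⟩ := AddCommGroup.equiv_free_prod_directSum_zmod M
  exact HomAux.P_congr f.symm
    (HomAux.P_prod (HomAux.P_finsupp n)
      (HomAux.P_directSum (fun i => p i ^ e i) fun i => pow_pos (hp i).pos _))

end Pool.Agent.HGC
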