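import Pool.Agent.HGC.Bil

/-!
Module C2: transport to `Fin`, and the counts `bilNZ`.
-/

set_option autoImplicit false

open scoped BigOperators

namespace Pool.Agent.HGC

namespace NZAux

/-- transport of a hypergraph -/
def tr {α β γ α' β' γ' : Type} (a : α ≃ α') (b : β ≃ β') (c : γ ≃ γ')
    (H : Finset (α × β × γ)) : Finset (α' × β' × γ') :=
  H.map (Equiv.prodCongr a (Equiv.prodCongr b c)).toEmbedding

theorem tr_deg {X Y : Type} (H : Finset X) (e : X ≃ Y) {P : X → Prop} {Q : Y → Prop}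
    (h : ∀ x, Q (e x) ↔ P x) :
    {y | y ∈ H.map e.toEmbedding ∧ Q y}.ncard = {x | x ∈ H ∧ P x}.ncard := by
  have : {y | y ∈ H.map e.toEmbedding ∧ Q y} = e '' {x | x ∈ H ∧ P x} := by
    ext y
    constructor
    · rintro ⟨hy, hq⟩
      obtain ⟨x, hx, rfl⟩ := Finset.mem_map.1 hy
      exact ⟨x, ⟨hx, (h x).1 hq⟩, rfl⟩
    · rintro ⟨x, ⟨hx, hp⟩, rfl⟩
      exact ⟨Finset.mem_map.2 ⟨x, hx, rfl⟩, (h x).2 hp⟩
  rw [this, Set.ncard_image_of_injective _ e.injective]

theorem tr_maxDeg {α β γ α' β' γ' : Type} (a : α ≃ α') (b : β ≃ β') (c : γ ≃ γ') {d : ℕ}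
    {H : Finset (α × β × γ)} (h : MaxDeg d H) : MaxDeg d (tr a b c H) := by
  refine ⟨fun i => ?_, fun j => ?_, fun k => ?_⟩
  · refine le_trans (le_of_eq ?_) (h.1 (a.symm i))
    refine tr_deg H _ fun x => ?_
    show a x.1 = i ↔ x.1 = a.symm i
    rw [Equiv.eq_symm_apply]
  · refine le_trans (le_of_eq ?_) (h.2.1 (b.symm j))
    refine tr_deg H _ fun x => ?_
    show b x.2.1 = j ↔ x.2.1 = b.symm j
    rw [Equiv.eq_symm_apply]
  · refine le_trans (le_of_eq ?_) (h.2.2 (c.symm k))
    refine tr_deg H _ fun x => ?_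
    show c x.2.2 = k ↔ x.2.2 = c.symm k
    rw [Equiv.eq_symm_apply]

theorem tr_cubic {α β γ α' β' γ' : Type} (a : α ≃ α') (b : β ≃ β') (c : γ ≃ γ')
    (H : Finset (α × β × γ)) (K : Type) [Field K] :
    cubicCount (tr a b c H) K = cubicCount H K := by
  unfold cubicCount
  refine Nat.card_congr (Equiv.subtypeEquiv
    (Equiv.prodCongr (Equiv.arrowCongr a (Equiv.refl K)) (Equiv.prodCongr
      (Equiv.arrowCongr b (Equiv.refl K)) (Equiv.arrowCongr c (Equiv.refl K)))).symm ?_)
  intro v
  rw [tr, Finset.sum_map]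
  rfl

/-- exchange of the first two kinds of vertices -/
def sw {α β γ : Type} : (α × β × γ) ≃ (β × α × γ) where
  toFun x := (x.2.1, x.1, x.2.2)
  invFun x := (x.2.1, x.1, x.2.2)
  left_inv _ := rfl
  right_inv _ := rfl

theorem sw_maxDeg {α β γ : Type} {d : ℕ} {H : Finset (α × β × γ)} (h : MaxDeg d H) :
    MaxDeg d (H.map (sw (α := α)).toEmbedding) := by
  refine ⟨fun i => ?_, fun j => ?_, fun k => ?_⟩
  · exact le_trans (le_of_eq (tr_deg H _ fun x => Iff.rfl)) (h.2.1 i)
  · exact le_trans (le_of_eq (tr_deg H _ fun x => Iff.rfl)) (h.1 j)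
  · exact le_trans (le_of_eq (tr_deg H _ fun x => Iff.rfl)) (h.2.2 k)

theorem sw_bilNZ {α β γ : Type} (H : Finset (α × β × γ)) (S : Finset α) (T : Finset β)
    (K : Type) [Field K] :
    bilNZ (H.map (sw (α := α)).toEmbedding) T S K = bilNZ H S T K := by
  unfold bilNZ
  refine Nat.card_congr (Equiv.subtypeEquiv (Equiv.prodComm _ _) ?_)
  intro v
  simp only [Finset.sum_map]
  constructor
  · rintro ⟨h1, h2, h3⟩
    refine ⟨fun z => ?_, h3, h2⟩
    rw [← h1 z]
    refine Finset.sum_congr rfl fun e _ => ?_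
    show v.2 e.1 * v.1 e.2.1 * z e.2.2 = v.1 e.2.1 * v.2 e.1 * z e.2.2
    ring
  · rintro ⟨h1, h2, h3⟩
    refine ⟨fun z => ?_, h3, h2⟩
    rw [← h1 z]
    refine Finset.sum_congr rfl fun e _ => ?_
    show v.1 e.2.1 * v.2 e.1 * z e.2.2 = v.2 e.1 * v.1 e.2.1 * z e.2.2
    ring

end NZAux

open NZAux

/-- transport to `Fin` -/
theorem cubic_fin {Q : PF → Prop}
    (hH : ∀ (a b c : ℕ) (H : Finset (Fin a × Fin b × Fin c)), MaxDeg 3 H → Q (countPF (cubicCount H)))
    {α β γ : Type} [Fintype α] [Fintype β] [Fintype γ] (H : Finset (α × β × γ)) (h : MaxDeg 3 H) :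
    Q (countPF (cubicCount H)) := by
  have h1 := hH _ _ _ _ (tr_maxDeg (Fintype.equivFin α) (Fintype.equivFin β) (Fintype.equivFin γ) h)
  have h2 : (fun (K : Type) [Field K] => cubicCount (tr (Fintype.equivFin α) (Fintype.equivFin β)
      (Fintype.equivFin γ) H) K) = fun (K : Type) [Field K] => cubicCount H K := by
    funext K _
    exact tr_cubic _ _ _ H K
  have h3 : countPF (cubicCount (tr (Fintype.equivFin α) (Fintype.equivFin β)
      (Fintype.equivFin γ) H)) = countPF (cubicCount H) := by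
    exact congrArg countPF h2
  rw [← h3]
  exact h1

namespace NZAux

theorem countPF_congr {N N' : (K : Type) → [Field K] → ℕ} (h : ∀ (K : Type) [Field K], N K = N' K) :
    countPF N = countPF N' := by
  have : (fun (K : Type) [Field K] => N K) = fun (K : Type) [Field K] => N' K := by
    funext K _
    exact h K
  exact congrArg countPF this

theorem card_gf (p : Nat.Primes) {r : ℕ} (hr : 1 ≤ r) :
    haveI : Fact (p : ℕ).Prime := ⟨p.2⟩
    Nat.card (GaloisField p r) = (p : ℕ) ^ r := by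
  have : Fact (p : ℕ).Prime := ⟨p.2⟩
  exact GaloisField.card p r (by omega)

theorem adm_pow {Q : PF → Prop} (hQ : Admissible Q) (n : ℕ) :
    Q fun p r => (((p : ℕ) : ℂ) ^ r) ^ n := by
  induction n with
  | zero => exact hQ.congr (fun p r _ => by ring) hQ.one
  | succ n ih => exact hQ.congr (fun p r _ => by ring) (hQ.mulq ih)

theorem adm_divq_pow {Q : PF → Prop} (hQ : Admissible Q) (n : ℕ) {f : PF}
    (h : Q fun p r => (((p : ℕ) : ℂ) ^ r) ^ n * f p r) : Q f := by
  induction n with
  | zero => exact hQ.congr (fun p r _ => by ring) h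
  | succ n ih => exact ih (hQ.divq (hQ.congr (fun p r _ => by ring) h))

theorem adm_bil {Q : PF → Prop} (hQ : Admissible Q) {α β γ : Type} [Fintype α] [Fintype β]
    [Fintype γ] (H : Finset (α × β × γ)) (h : Q (countPF (cubicCount H))) :
    Q (countPF (bilCount H)) := by
  refine hQ.divq1 (adm_divq_pow hQ (Fintype.card γ) ?_)
  refine hQ.congr (fun p r hr => ?_) (hQ.add (hQ.mulq h)
    (hQ.neg (adm_pow hQ (Fintype.card α + Fintype.card β + Fintype.card γ))))
  have : Fact (p : ℕ).Prime := ⟨p.2⟩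
  have h1 := cubic_bil H (GaloisField p r)
  rw [card_gf p hr] at h1
  have h2 : ((((p : ℕ) ^ r : ℕ) : ℤ) : ℂ) * ((cubicCount H (GaloisField p r) : ℤ) : ℂ) =
      ((((p : ℕ) ^ r : ℕ) : ℤ) : ℂ) ^ (Fintype.card α + Fintype.card β + Fintype.card γ) +
        ((((p : ℕ) ^ r : ℕ) : ℤ) : ℂ) ^ Fintype.card γ * (((((p : ℕ) ^ r : ℕ) : ℤ) : ℂ) - 1) *
          ((bilCount H (GaloisField p r) : ℤ) : ℂ) := by
    exact_mod_cast congrArg (fun z : ℤ => (z : ℂ)) h1
  have h3 : countPF (cubicCount H) p r = ((cubicCount H (GaloisField p r) : ℤ) : ℂ) := by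
    rw [Int.cast_natCast]; rfl
  have h4 : countPF (bilCount H) p r = ((bilCount H (GaloisField p r) : ℤ) : ℂ) := by
    rw [Int.cast_natCast]; rfl
  have h5 : ((((p : ℕ) ^ r : ℕ) : ℤ) : ℂ) = ((p : ℕ) : ℂ) ^ r := by push_cast; rfl
  rw [h5] at h2
  rw [h3, h4, h2]; ring

theorem card_split {X : Type} [Finite X] (P R : X → Prop) :
    Nat.card {x // P x} = Nat.card {x // P x ∧ R x} + Nat.card {x // P x ∧ ¬R x} := by
  classical
  rw [← Nat.card_congr (Equiv.sumCompl fun x : {x // P x} => R x.1), Nat.card_sum]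
  congr 1
  · exact Nat.card_congr (Equiv.subtypeSubtypeEquivSubtypeInter P R)
  · exact Nat.card_congr (Equiv.subtypeSubtypeEquivSubtypeInter P fun x => ¬R x)

/-- the conditions defining `bilNZ` -/
def Cond {α β γ : Type} (H : Finset (α × β × γ)) (S : Finset α) (T : Finset β)
    {K : Type} [Field K] (v : (α → K) × (β → K)) : Prop :=
  (∀ z : γ → K, ∑ e ∈ H, v.1 e.1 * v.2 e.2.1 * z e.2.2 = 0) ∧
    (∀ i ∈ S, v.1 i ≠ 0) ∧ ∀ j ∈ T, v.2 j ≠ 0

open Classical in
/-- deletion of a vertex -/
noncomputable def del {α β γ : Type} (i : α) (H : Finset (α × β × γ)) : Finset (α × β × γ) :=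
  H.filter fun e => e.1 ≠ i

theorem mem_del {α β γ : Type} {i : α} {H : Finset (α × β × γ)} {e : α × β × γ} :
    e ∈ del i H ↔ e ∈ H ∧ e.1 ≠ i := by
  unfold del
  simp

theorem del_maxDeg {α β γ : Type} {d : ℕ} (i : α) {H : Finset (α × β × γ)} (h : MaxDeg d H) :
    MaxDeg d (del i H) := by
  have key : ∀ P : α × β × γ → Prop,
      {e | e ∈ del i H ∧ P e}.ncard ≤ {e | e ∈ H ∧ P e}.ncard := by
    intro P
    refine Set.ncard_le_ncard ?_ ?_
    · rintro e ⟨he, hp⟩
      exact ⟨(mem_del.1 he).1, hp⟩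
    · exact (Finset.finite_toSet H).subset fun e he => he.1
  exact ⟨fun i' => (key _).trans (h.1 i'), fun j => (key _).trans (h.2.1 j),
    fun k => (key _).trans (h.2.2 k)⟩

theorem sum_del {α β γ : Type} (i : α) (H : Finset (α × β × γ)) {K : Type} [Field K]
    (x x' : α → K) (y : β → K) (z : γ → K) (h0 : x i = 0) (hx : ∀ i', i' ≠ i → x i' = x' i') :
    ∑ e ∈ H, x e.1 * y e.2.1 * z e.2.2 = ∑ e ∈ del i H, x' e.1 * y e.2.1 * z e.2.2 := by
  classical
  rw [del, Finset.sum_filter]
  refine Finset.sum_congr rfl fun e _ => ?_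
  by_cases he : e.1 = i
  · rw [if_neg (fun h => h he), he, h0]; ring
  · rw [if_pos he, hx _ he]

open Classical in
theorem cond_zero {α β γ : Type} (i : α) (H : Finset (α × β × γ)) (S : Finset α)
    (T : Finset β) (hi : i ∉ S) {K : Type} [Field K] {x : α → K} {y : β → K}
    (h : Cond (del i H) S T (x, y)) :
    Cond H S T (Function.update x i 0, y) ∧ (Function.update x i 0) i = 0 := by
  refine ⟨⟨fun z => ?_, fun i' hi' => ?_, h.2.2⟩, Function.update_self ..⟩
  · exact (sum_del i H (Function.update x i 0) x y z (Function.update_self ..)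
      fun i' hi' => Function.update_of_ne hi' _ _).trans (h.1 z)
  · have : i' ≠ i := fun h => hi (h ▸ hi')
    show Function.update x i 0 i' ≠ 0
    rw [Function.update_of_ne this]
    exact h.2.1 i' hi'

open Classical in
theorem cond_free {α β γ : Type} (i : α) (H : Finset (α × β × γ)) (S : Finset α)
    (T : Finset β) (hi : i ∉ S) {K : Type} [Field K] {x : α → K} {y : β → K} (t : K)
    (h : Cond H S T (x, y)) (h0 : x i = 0) :
    Cond (del i H) S T (Function.update x i t, y) := by
  refine ⟨fun z => ?_, fun i' hi' => ?_, h.2.2⟩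
  · exact (sum_del i H x (Function.update x i t) y z h0
      fun i' hi' => (Function.update_of_ne hi' _ _).symm).symm.trans (h.1 z)
  · have : i' ≠ i := fun h => hi (h ▸ hi')
    show Function.update x i t i' ≠ 0
    rw [Function.update_of_ne this]
    exact h.2.1 i' hi'

open Classical in
/-- the free variable -/
noncomputable def delEquiv {α β γ : Type} (i : α) (H : Finset (α × β × γ)) (S : Finset α)
    (T : Finset β) (hi : i ∉ S) (K : Type) [Field K] :
    {v : (α → K) × (β → K) // Cond (del i H) S T v} ≃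
      K × {v : (α → K) × (β → K) // Cond H S T v ∧ v.1 i = 0} where
  toFun v := (v.1.1 i, ⟨(Function.update v.1.1 i 0, v.1.2), cond_zero i H S T hi v.2⟩)
  invFun w := ⟨(Function.update w.2.1.1 i w.1, w.2.1.2),
    cond_free i H S T hi w.1 w.2.2.1 w.2.2.2⟩
  left_inv v := by
    apply Subtype.ext
    apply Prod.ext
    · show Function.update (Function.update v.1.1 i 0) i (v.1.1 i) = v.1.1
      rw [Function.update_idem, Function.update_eq_self]
    · rfl
  right_inv w := by
    apply Prod.ext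
    · show Function.update w.2.1.1 i w.1 i = w.1
      exact Function.update_self ..
    · apply Subtype.ext
      apply Prod.ext
      · show Function.update (Function.update w.2.1.1 i w.1) i 0 = w.2.1.1
        rw [Function.update_idem]
        exact (congrArg (Function.update w.2.1.1 i) w.2.2.2.symm).trans
          (Function.update_eq_self i w.2.1.1)
      · rfl

theorem bilNZ_del {α β γ : Type} (i : α) (H : Finset (α × β × γ)) (S : Finset α)
    (T : Finset β) (hi : i ∉ S) (K : Type) [Field K] :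
    bilNZ (del i H) S T K = Nat.card K *
      Nat.card {v : (α → K) × (β → K) // Cond H S T v ∧ v.1 i = 0} := by
  rw [← Nat.card_prod]
  exact Nat.card_congr (delEquiv i H S T hi K)

theorem bilNZ_insert {α β γ : Type} [Finite α] [Finite β] [DecidableEq α] (i : α)
    (H : Finset (α × β × γ)) (S : Finset α) (T : Finset β) (K : Type) [Field K] [Finite K] :
    bilNZ H S T K = Nat.card {v : (α → K) × (β → K) // Cond H S T v ∧ v.1 i = 0} +
      bilNZ H (insert i S) T K := by
  have h1 : bilNZ H S T K = Nat.card {v : (α → K) × (β → K) // Cond H S T v} := rfl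
  rw [h1, card_split (fun v : (α → K) × (β → K) => Cond H S T v) fun v => v.1 i = 0]
  congr 1
  refine Nat.card_congr (Equiv.subtypeEquivRight fun v => ?_)
  constructor
  · rintro ⟨⟨h2, h3, h4⟩, h5⟩
    refine ⟨h2, fun i' hi' => ?_, h4⟩
    rcases Finset.mem_insert.1 hi' with rfl | h6
    · exact h5
    · exact h3 i' h6
  · rintro ⟨h2, h3, h4⟩
    exact ⟨⟨h2, fun i' hi' => h3 i' (Finset.mem_insert_of_mem hi'), h4⟩,
      h3 i (Finset.mem_insert_self i S)⟩

/-- adding nonvanishing conditions on the variables `x` -/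
theorem adm_S {Q : PF → Prop} (hQ : Admissible Q) {α β γ : Type} [Fintype α] [Fintype β]
    [Fintype γ] (T : Finset β)
    (h : ∀ H : Finset (α × β × γ), MaxDeg 3 H → Q (countPF (bilNZ H ∅ T))) (S : Finset α) :
    ∀ H : Finset (α × β × γ), MaxDeg 3 H → Q (countPF (bilNZ H S T)) := by
  classical
  induction S using Finset.induction_on with
  | empty => exact h
  | insert i S hi ih =>
    intro H hH
    have h1 : Q (countPF fun K _ =>
        Nat.card {v : (α → K) × (β → K) // Cond H S T v ∧ v.1 i = 0}) := by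
      refine hQ.divq (hQ.congr (fun p r hr => ?_) (ih (del i H) (del_maxDeg i hH)))
      have : Fact (p : ℕ).Prime := ⟨p.2⟩
      have h2 := bilNZ_del i H S T hi (GaloisField p r)
      rw [card_gf p hr] at h2
      show ((bilNZ (del i H) S T (GaloisField p r) : ℕ) : ℂ) = ((p : ℕ) : ℂ) ^ r *
        ((Nat.card {v : (α → GaloisField p r) × (β → GaloisField p r) //
          Cond H S T v ∧ v.1 i = 0} : ℕ) : ℂ)
      rw [h2]
      push_cast
      rfl
    refine hQ.congr (fun p r hr => ?_) (hQ.add (ih H hH) (hQ.neg h1))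
    have : Fact (p : ℕ).Prime := ⟨p.2⟩
    have h2 := bilNZ_insert i H S T (GaloisField p r)
    show ((bilNZ H S T (GaloisField p r) : ℕ) : ℂ) +
      -((Nat.card {v : (α → GaloisField p r) × (β → GaloisField p r) //
          Cond H S T v ∧ v.1 i = 0} : ℕ) : ℂ) =
      ((bilNZ H (insert i S) T (GaloisField p r) : ℕ) : ℂ)
    rw [h2]
    push_cast
    ring

end NZAux

theorem adm_bilNZ {Q : PF → Prop} (hQ : Admissible Q)
    (hH : ∀ (a b c : ℕ) (H : Finset (Fin a × Fin b × Fin c)), MaxDeg 3 H → Q (countPF (cubicCount H)))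
    {α β γ : Type} [Fintype α] [Fintype β] [Fintype γ] (H : Finset (α × β × γ)) (h : MaxDeg 3 H)
    (S : Finset α) (T : Finset β) : Q (countPF (bilNZ H S T)) := by
  -- no conditions
  have h0 : ∀ {α β γ : Type} [Fintype α] [Fintype β] [Fintype γ] (H : Finset (α × β × γ)),
      MaxDeg 3 H → Q (countPF (bilNZ H ∅ ∅)) := by
    intro α β γ _ _ _ H h
    have h1 := adm_bil hQ H (cubic_fin hH H h)
    rwa [countPF_congr (N' := bilCount H)]
    intro K _
    refine Nat.card_congr (Equiv.subtypeEquivRight fun v => ?_)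
    exact ⟨fun h => h.1, fun h => ⟨h, by simp, by simp⟩⟩
  -- conditions on `y`
  have h1 : ∀ H : Finset (α × β × γ), MaxDeg 3 H → Q (countPF (bilNZ H ∅ T)) := by
    intro H h
    have h2 := adm_S hQ (α := β) (β := α) (γ := γ) ∅ (fun H h => h0 H h) T _ (sw_maxDeg h)
    rwa [countPF_congr fun K _ => sw_bilNZ H ∅ T K] at h2
  exact adm_S hQ T h1 S H h

end Pool.Agent.HGC
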