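import Pool.Agent.HGC.Defs

/-! # Module PG: a polynomial system as a system of equations `v_A v_B = v_C + v_D` -/

set_option autoImplicit false

open scoped BigOperators

namespace Pool.Agent.HGC

namespace PolyAux

open MvPolynomial

variable {n : ℕ}

/-- polynomials obtained step by step inside `F` -/
inductive Der (F : Set (MvPolynomial (Fin n) ℤ)) : MvPolynomial (Fin n) ℤ → Prop
  | one : Der F 1
  | var (i : Fin n) : Der F (X i)
  | step (a b c : MvPolynomial (Fin n) ℤ) : a ∈ F → b ∈ F → c ∈ F → Der F a → Der F b →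
      Der F c → Der F (a * b - c)

theorem Der.mono {F F' : Set (MvPolynomial (Fin n) ℤ)} (h : F ⊆ F')
    {g : MvPolynomial (Fin n) ℤ} (hg : Der F g) : Der F' g := by
  induction hg with
  | one => exact Der.one
  | var i => exact Der.var i
  | step a b c ha hb hc _ _ _ ia ib ic => exact Der.step a b c (h ha) (h hb) (h hc) ia ib ic

/-- sets closed under the derivation of their members -/
def Good (F : Finset (MvPolynomial (Fin n) ℤ)) : Prop :=
  (1 : MvPolynomial (Fin n) ℤ) ∈ F ∧ (∀ i, (X i : MvPolynomial (Fin n) ℤ) ∈ F) ∧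
    ∀ g ∈ F, Der (F : Set (MvPolynomial (Fin n) ℤ)) g

/-- members of finite good sets -/
def Reach (g : MvPolynomial (Fin n) ℤ) : Prop := ∃ F, Good F ∧ g ∈ F

open Classical in
theorem Good.union {F F' : Finset (MvPolynomial (Fin n) ℤ)} (h : Good F) (h' : Good F') :
    Good (F ∪ F') := by
  refine ⟨Finset.mem_union_left _ h.1, fun i => Finset.mem_union_left _ (h.2.1 i), ?_⟩
  intro g hg
  rcases Finset.mem_union.1 hg with hg | hg
  · exact (h.2.2 g hg).mono (by intro x hx; exact Finset.mem_coe.2 (Finset.mem_union_left _ hx))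
  · exact (h'.2.2 g hg).mono (by intro x hx; exact Finset.mem_coe.2 (Finset.mem_union_right _ hx))

open Classical in
theorem exists_good_base : ∃ F : Finset (MvPolynomial (Fin n) ℤ), Good F := by
  refine ⟨insert 1 (Finset.univ.image fun i => X i), Finset.mem_insert_self _ _,
    fun i => Finset.mem_insert_of_mem (Finset.mem_image_of_mem _ (Finset.mem_univ i)), ?_⟩
  intro g hg
  rcases Finset.mem_insert.1 hg with rfl | hg
  · exact Der.one
  · obtain ⟨i, -, rfl⟩ := Finset.mem_image.1 hg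
    exact Der.var i

theorem reach_one : Reach (1 : MvPolynomial (Fin n) ℤ) := by
  obtain ⟨F, hF⟩ := exists_good_base (n := n)
  exact ⟨F, hF, hF.1⟩

theorem reach_var (i : Fin n) : Reach (X i : MvPolynomial (Fin n) ℤ) := by
  obtain ⟨F, hF⟩ := exists_good_base (n := n)
  exact ⟨F, hF, hF.2.1 i⟩

open Classical in
theorem reach_step {a b c : MvPolynomial (Fin n) ℤ} (ha : Reach a) (hb : Reach b)
    (hc : Reach c) : Reach (a * b - c) := by
  obtain ⟨A, hA, haA⟩ := ha
  obtain ⟨B, hB, hbB⟩ := hb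
  obtain ⟨C, hC, hcC⟩ := hc
  have hU := (hA.union hB).union hC
  have h1 : a ∈ A ∪ B ∪ C := Finset.mem_union_left _ (Finset.mem_union_left _ haA)
  have h2 : b ∈ A ∪ B ∪ C := Finset.mem_union_left _ (Finset.mem_union_right _ hbB)
  have h3 : c ∈ A ∪ B ∪ C := Finset.mem_union_right _ hcC
  have hsub : ((A ∪ B ∪ C : Finset _) : Set (MvPolynomial (Fin n) ℤ)) ⊆
      ((insert (a * b - c) (A ∪ B ∪ C) : Finset _) : Set (MvPolynomial (Fin n) ℤ)) := by
    intro x hx
    exact Finset.mem_coe.2 (Finset.mem_insert_of_mem hx)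
  refine ⟨insert (a * b - c) (A ∪ B ∪ C), ⟨Finset.mem_insert_of_mem hU.1,
    fun i => Finset.mem_insert_of_mem (hU.2.1 i), ?_⟩, Finset.mem_insert_self _ _⟩
  intro g hg
  rcases Finset.mem_insert.1 hg with rfl | hg
  · exact Der.step a b c (hsub h1) (hsub h2) (hsub h3) ((hU.2.2 a h1).mono hsub)
      ((hU.2.2 b h2).mono hsub) ((hU.2.2 c h3).mono hsub)
  · exact (hU.2.2 g hg).mono hsub

theorem reach_zero : Reach (0 : MvPolynomial (Fin n) ℤ) := by
  have h := reach_step (n := n) reach_one reach_one reach_one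
  simpa using h

theorem reach_neg {a : MvPolynomial (Fin n) ℤ} (ha : Reach a) : Reach (-a) := by
  have h := reach_step (n := n) reach_zero reach_zero ha
  simpa using h

theorem reach_mul {a b : MvPolynomial (Fin n) ℤ} (ha : Reach a) (hb : Reach b) :
    Reach (a * b) := by
  have h := reach_step (n := n) ha hb reach_zero
  simpa using h

theorem reach_add {a b : MvPolynomial (Fin n) ℤ} (ha : Reach a) (hb : Reach b) :
    Reach (a + b) := by
  have h := reach_step (n := n) ha reach_one (reach_neg hb)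
  simpa using h

theorem reach_nat (k : ℕ) : Reach (n := n) (C (k : ℤ)) := by
  induction k with
  | zero => simpa using reach_zero (n := n)
  | succ k ih =>
    have := reach_add (n := n) ih reach_one
    simpa using this

theorem reach_int (k : ℤ) : Reach (n := n) (C k) := by
  obtain ⟨m, rfl | rfl⟩ := k.eq_nat_or_neg
  · exact reach_nat m
  · rw [map_neg]
    exact reach_neg (reach_nat m)

theorem reach_all (g : MvPolynomial (Fin n) ℤ) : Reach g := by
  induction g using MvPolynomial.induction_on with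
  | C a => exact reach_int a
  | add p q hp hq => exact reach_add hp hq
  | mul_X p i hp => exact reach_mul hp (reach_var i)

open Classical in
theorem exists_good {m : ℕ} (P : Fin m → MvPolynomial (Fin n) ℤ) :
    ∃ F : Finset (MvPolynomial (Fin n) ℤ), Good F ∧ (0 : MvPolynomial (Fin n) ℤ) ∈ F ∧
      ∀ i, P i ∈ F := by
  induction m with
  | zero =>
    obtain ⟨F, hF, h0⟩ := reach_zero (n := n)
    exact ⟨F, hF, h0, fun i => i.elim0⟩
  | succ m ih =>
    obtain ⟨F, hF, h0, hP⟩ := ih (fun i => P i.castSucc)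
    obtain ⟨F', hF', hP'⟩ := reach_all (P (Fin.last m))
    refine ⟨F ∪ F', hF.union hF', Finset.mem_union_left _ h0, fun i => ?_⟩
    induction i using Fin.lastCases with
    | last => exact Finset.mem_union_right _ hP'
    | cast i => exact Finset.mem_union_left _ (hP i)

/-- the quadruples of members of `F` with `a * b = c + d` -/
abbrev Quad (F : Finset (MvPolynomial (Fin n) ℤ)) : Type :=
  {q : F × F × F × F // (q.1 : MvPolynomial (Fin n) ℤ) * q.2.1 = q.2.2.1 + q.2.2.2}

/-- the gadget system of a good set -/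
noncomputable def gad {m : ℕ} (P : Fin m → MvPolynomial (Fin n) ℤ) (F : Finset (MvPolynomial (Fin n) ℤ))
    (h1 : (1 : MvPolynomial (Fin n) ℤ) ∈ F) (h0 : (0 : MvPolynomial (Fin n) ℤ) ∈ F)
    (hP : ∀ i, P i ∈ F) : Gadget F (Quad F ⊕ Fin m) where
  o := ⟨1, h1⟩
  A := Sum.elim (fun q => q.1.1) fun _ => ⟨1, h1⟩
  B := Sum.elim (fun q => q.1.2.1) fun i => ⟨P i, hP i⟩
  C := Sum.elim (fun q => q.1.2.2.1) fun _ => ⟨0, h0⟩
  D := Sum.elim (fun q => q.1.2.2.2) fun _ => ⟨0, h0⟩

theorem value_eq {m : ℕ} (P : Fin m → MvPolynomial (Fin n) ℤ)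
    (F : Finset (MvPolynomial (Fin n) ℤ)) (hF : Good F)
    (h0 : (0 : MvPolynomial (Fin n) ℤ) ∈ F) (hP : ∀ i, P i ∈ F) (K : Type) [Field K]
    (v : F → K) (hv1 : v (gad P F hF.1 h0 hP).o = 1)
    (hv : ∀ j, v ((gad P F hF.1 h0 hP).A j) * v ((gad P F hF.1 h0 hP).B j) =
      v ((gad P F hF.1 h0 hP).C j) + v ((gad P F hF.1 h0 hP).D j))
    (g : MvPolynomial (Fin n) ℤ) (hd : Der (F : Set (MvPolynomial (Fin n) ℤ)) g)
    (hg : g ∈ F) : v ⟨g, hg⟩ = aeval (fun i => v ⟨X i, hF.2.1 i⟩) g := by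
  induction hd with
  | one => rw [map_one]; exact hv1
  | var i => rw [aeval_X]
  | step a b c ha hb hc _ _ _ ia ib ic =>
    have ha' : a ∈ F := ha
    have hb' : b ∈ F := hb
    have hc' : c ∈ F := hc
    have h := hv (Sum.inl ⟨(⟨a, ha'⟩, ⟨b, hb'⟩, ⟨c, hc'⟩, ⟨a * b - c, hg⟩), by
      show a * b = c + (a * b - c); ring⟩)
    have h' : v ⟨a, ha'⟩ * v ⟨b, hb'⟩ = v ⟨c, hc'⟩ + v ⟨a * b - c, hg⟩ := h
    rw [map_sub, map_mul, ← ia ha', ← ib hb', ← ic hc', h']
    ring

end PolyAux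

open PolyAux MvPolynomial in
theorem exists_gadget {n m : ℕ} (P : Fin m → MvPolynomial (Fin n) ℤ) :
    ∃ (V J : Type) (_ : Fintype V) (_ : Fintype J) (G : Gadget V J),
      ∀ (K : Type) [Field K], affCount P K = gadCount G K := by
  classical
  obtain ⟨F, hF, h0, hP⟩ := exists_good P
  refine ⟨F, Quad F ⊕ Fin m, inferInstance, inferInstance, gad P F hF.1 h0 hP, ?_⟩
  intro K _
  unfold affCount gadCount
  refine Nat.card_congr ⟨fun x => ⟨fun g => aeval x.1 g.1, ?_, ?_⟩,
    fun v => ⟨fun i => v.1 ⟨X i, hF.2.1 i⟩, ?_⟩, ?_, ?_⟩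
  · show aeval x.1 (1 : MvPolynomial (Fin n) ℤ) = 1
    rw [map_one]
  · rintro (q | i)
    · show aeval x.1 (q.1.1 : MvPolynomial (Fin n) ℤ) * aeval x.1 (q.1.2.1 : MvPolynomial _ ℤ) =
        aeval x.1 (q.1.2.2.1 : MvPolynomial (Fin n) ℤ) +
          aeval x.1 (q.1.2.2.2 : MvPolynomial (Fin n) ℤ)
      rw [← map_mul, q.2, map_add]
    · show aeval x.1 (1 : MvPolynomial (Fin n) ℤ) * aeval x.1 (P i) =
        aeval x.1 (0 : MvPolynomial (Fin n) ℤ) + aeval x.1 (0 : MvPolynomial (Fin n) ℤ)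
      rw [x.2 i, map_zero, mul_zero, add_zero]
  · intro i
    have h1 := value_eq P F hF h0 hP K v.1 v.2.1 v.2.2 (P i) (hF.2.2 _ (hP i)) (hP i)
    have h2 := value_eq P F hF h0 hP K v.1 v.2.1 v.2.2 0 (hF.2.2 _ h0) h0
    rw [← h1]
    have h3 : v.1 ⟨1, hF.1⟩ * v.1 ⟨P i, hP i⟩ = v.1 ⟨0, h0⟩ + v.1 ⟨0, h0⟩ := v.2.2 (Sum.inr i)
    have h4 : v.1 ⟨1, hF.1⟩ = 1 := v.2.1
    rw [h4, h2, map_zero, one_mul, add_zero] at h3
    exact h3
  · rintro ⟨x, hx⟩
    apply Subtype.ext
    funext i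
    show aeval x (X i : MvPolynomial (Fin n) ℤ) = x i
    rw [aeval_X]
  · rintro ⟨v, hv1, hv⟩
    apply Subtype.ext
    funext g
    exact (value_eq P F hF h0 hP K v hv1 hv g.1 (hF.2.2 _ g.2) g.2).symm

end Pool.Agent.HGC
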