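import Pool.Agent.HGC.Torus
import Pool.Agent.HGC.Bil
import Pool.Agent.HGC.DirSpanMul

/-! Module ST: bilinear systems with at most two terms in each equation; cubics of z-degree two. -/

set_option autoImplicit false

open scoped BigOperators

namespace Pool.Agent.HGC

namespace StrataAux

variable {α β γ : Type} [Fintype α] [Fintype β] [Fintype γ]

/-- solutions of the bilinear system -/
def Sol (H : Finset (α × β × γ)) (K : Type) [Field K] : Type :=
  {v : (α → K) × (β → K) // ∀ z : γ → K, ∑ e ∈ H, v.1 e.1 * v.2 e.2.1 * z e.2.2 = 0}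

open Classical in
/-- the pair of supports -/
noncomputable def supp {K : Type} [Field K] (v : (α → K) × (β → K)) : Finset α × Finset β :=
  (Finset.univ.filter fun i => v.1 i ≠ 0, Finset.univ.filter fun j => v.2 j ≠ 0)

omit [Fintype γ] in
theorem supp_eq_iff {K : Type} [Field K] (v : (α → K) × (β → K)) (S : Finset α) (T : Finset β) :
    supp v = (S, T) ↔ (∀ i, v.1 i ≠ 0 ↔ i ∈ S) ∧ ∀ j, v.2 j ≠ 0 ↔ j ∈ T := by
  unfold supp
  rw [Prod.mk.injEq, Finset.ext_iff, Finset.ext_iff]
  simp

/-- number of solutions with supports `S`, `T` -/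
noncomputable def strat (H : Finset (α × β × γ)) (S : Finset α) (T : Finset β) (K : Type)
    [Field K] : ℕ :=
  Nat.card {v : (α → K) × (β → K) // (∀ z : γ → K, ∑ e ∈ H, v.1 e.1 * v.2 e.2.1 * z e.2.2 = 0) ∧
    supp v = (S, T)}

omit [Fintype γ] in
theorem bilCount_eq (H : Finset (α × β × γ)) (K : Type) [Field K] [Finite K] :
    bilCount H K = ∑ ST : Finset α × Finset β, strat H ST.1 ST.2 K := by
  unfold bilCount strat
  rw [← Nat.card_sigma]
  refine Nat.card_congr ⟨fun v => ⟨supp v.1, ⟨v.1, v.2, rfl⟩⟩, fun v => ⟨v.2.1, v.2.2.1⟩,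
    fun v => rfl, ?_⟩
  rintro ⟨ST, ⟨v, hv, hs⟩⟩
  obtain rfl : supp v = ST := hs
  rfl

open Classical in
/-- the edges over `k` inside the supports -/
noncomputable def edges (H : Finset (α × β × γ)) (S : Finset α) (T : Finset β) (k : γ) :
    Finset (α × β × γ) :=
  H.filter fun e => e.2.2 = k ∧ e.1 ∈ S ∧ e.2.1 ∈ T

omit [Fintype α] [Fintype β] in
theorem system_iff (H : Finset (α × β × γ)) (S : Finset α) (T : Finset β) {K : Type} [Field K]
    (v : (α → K) × (β → K)) (h1 : ∀ i, v.1 i ≠ 0 ↔ i ∈ S) (h2 : ∀ j, v.2 j ≠ 0 ↔ j ∈ T) :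
    (∀ z : γ → K, ∑ e ∈ H, v.1 e.1 * v.2 e.2.1 * z e.2.2 = 0) ↔
      ∀ k, ∑ e ∈ edges H S T k, v.1 e.1 * v.2 e.2.1 = 0 := by
  classical
  have key : ∀ k, ∑ e ∈ edges H S T k, v.1 e.1 * v.2 e.2.1 =
      ∑ e ∈ H with e.2.2 = k, v.1 e.1 * v.2 e.2.1 := by
    intro k
    unfold edges
    refine Finset.sum_subset ?_ ?_
    · intro e he
      rw [Finset.mem_filter] at he ⊢
      exact ⟨he.1, he.2.1⟩
    · intro e he he'
      rw [Finset.mem_filter] at he he'
      by_contra hne
      apply he'
      refine ⟨he.1, he.2, (h1 _).mp ?_, (h2 _).mp ?_⟩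
      · intro h; rw [h, zero_mul] at hne; exact hne rfl
      · intro h; rw [h, mul_zero] at hne; exact hne rfl
  simp only [key]
  constructor
  · intro h k
    rw [Finset.sum_filter]
    refine Eq.trans ?_ (h (Pi.single k 1))
    refine Finset.sum_congr rfl fun e _ => ?_
    rw [Pi.single_apply]
    split_ifs <;> simp
  · intro h z
    rw [← Finset.sum_fiberwise H (fun e => e.2.2)]
    refine Finset.sum_eq_zero fun k _ => ?_
    have : ∑ e ∈ H with e.2.2 = k, v.1 e.1 * v.2 e.2.1 * z e.2.2 =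
        (∑ e ∈ H with e.2.2 = k, v.1 e.1 * v.2 e.2.1) * z k := by
      rw [Finset.sum_mul]
      refine Finset.sum_congr rfl fun e he => ?_
      rw [(Finset.mem_filter.mp he).2]
    rw [this, h k, zero_mul]

/-- exponent vectors of the torus equations -/
noncomputable def expo {S : Finset α} {T : Finset β} {Λ : Type} (a b : Λ → S × T) :
    Λ → (S ⊕ T) → ℤ := by
  classical
  exact fun l i => Sum.elim
    (fun s => (if (a l).1 = s then 1 else 0) - (if (b l).1 = s then 1 else 0))
    (fun t => (if (a l).2 = t then 1 else 0) - (if (b l).2 = t then 1 else 0)) i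

omit [Fintype α] [Fintype β] in
theorem prod_expo {S : Finset α} {T : Finset β} {Λ : Type} (a b : Λ → S × T) {G : Type}
    [CommGroup G] (u : S ⊕ T → G) (l : Λ) :
    ∏ i, u i ^ expo a b l i =
      (u (Sum.inl (a l).1) * u (Sum.inr (a l).2)) / (u (Sum.inl (b l).1) * u (Sum.inr (b l).2)) := by
  classical
  have key : ∀ {ι : Type} [Fintype ι] (w : ι → G) (c : ι) [∀ i, Decidable (c = i)],
      ∏ i, w i ^ (if c = i then (1 : ℤ) else 0) = w c := by
    intro ι _ w c _
    rw [Finset.prod_eq_single c]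
    · simp
    · intro b _ hb
      rw [if_neg (Ne.symm hb), zpow_zero]
    · intro h; exact absurd (Finset.mem_univ c) h
  rw [Fintype.prod_sum_type]
  unfold expo
  simp only [Sum.elim_inl, Sum.elim_inr, zpow_sub, Finset.prod_mul_distrib, Finset.prod_inv_distrib]
  rw [key (fun s => u (Sum.inl s)), key (fun s => u (Sum.inl s)), key (fun s => u (Sum.inr s)),
    key (fun s => u (Sum.inr s)), div_eq_mul_inv, mul_inv, mul_mul_mul_comm]

open Classical in
theorem strat_torus (H : Finset (α × β × γ)) (S : Finset α) (T : Finset β)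
    (a b : {k // (edges H S T k).card = 2} → S × T)
    (hab : ∀ k, a k ≠ b k ∧ edges H S T k.1 =
      {((a k).1.1, (a k).2.1, k.1), ((b k).1.1, (b k).2.1, k.1)})
    (h0 : ∀ k, (edges H S T k).card = 0 ∨ (edges H S T k).card = 2)
    (K : Type) [Field K] :
    strat H S T K = Nat.card {u : S ⊕ T → Kˣ // ∀ l, ∏ i, u i ^ expo a b l i = -1} := by
  classical
  unfold strat
  have hcond : ∀ v : (α → K) × (β → K), (∀ i, v.1 i ≠ 0 ↔ i ∈ S) → (∀ j, v.2 j ≠ 0 ↔ j ∈ T) →
      ((∀ z : γ → K, ∑ e ∈ H, v.1 e.1 * v.2 e.2.1 * z e.2.2 = 0) ↔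
        ∀ k : {k // (edges H S T k).card = 2},
          v.1 (a k).1.1 * v.2 (a k).2.1 + v.1 (b k).1.1 * v.2 (b k).2.1 = 0) := by
    intro v h1 h2
    rw [system_iff H S T v h1 h2]
    have hsum : ∀ k : {k // (edges H S T k).card = 2},
        ∑ e ∈ edges H S T k.1, v.1 e.1 * v.2 e.2.1 =
          v.1 (a k).1.1 * v.2 (a k).2.1 + v.1 (b k).1.1 * v.2 (b k).2.1 := by
      intro k
      rw [(hab k).2, Finset.sum_pair]
      intro he
      apply (hab k).1
      rw [Prod.mk.injEq, Prod.mk.injEq] at he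
      exact Prod.ext (Subtype.ext he.1) (Subtype.ext he.2.1)
    constructor
    · intro h k
      rw [← hsum k]; exact h k.1
    · intro h k
      rcases h0 k with h | hk
      · rw [Finset.card_eq_zero.mp h, Finset.sum_empty]
      · rw [hsum ⟨k, hk⟩]; exact h ⟨k, hk⟩
  have hunit : ∀ (x y z w : Kˣ), x * y / (z * w) = -1 ↔ (x : K) * y + z * w = 0 := by
    intro x y z w
    rw [div_eq_iff_eq_mul, neg_one_mul, ← Units.val_inj]
    push_cast
    rw [eq_neg_iff_add_eq_zero]
  refine Nat.card_congr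
    { toFun := fun v => ⟨Sum.elim
        (fun s => Units.mk0 (v.1.1 s.1) ((((supp_eq_iff v.1 S T).mp v.2.2).1 s.1).mpr s.2))
        (fun t => Units.mk0 (v.1.2 t.1) ((((supp_eq_iff v.1 S T).mp v.2.2).2 t.1).mpr t.2)), ?_⟩
      invFun := fun u => ⟨(fun i => if h : i ∈ S then ((u.1 (Sum.inl ⟨i, h⟩) : Kˣ) : K) else 0,
        fun j => if h : j ∈ T then ((u.1 (Sum.inr ⟨j, h⟩) : Kˣ) : K) else 0), ?_, ?_⟩
      left_inv := ?_
      right_inv := ?_ }
  · intro l
    rw [prod_expo, hunit]
    have hs := (supp_eq_iff v.1 S T).mp v.2.2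
    exact (hcond v.1 hs.1 hs.2).mp v.2.1 l
  · rw [hcond]
    · intro k
      have := u.2 k
      rw [prod_expo, hunit] at this
      simpa using this
    · intro i
      by_cases h : i ∈ S <;> simp [h]
    · intro j
      by_cases h : j ∈ T <;> simp [h]
  · rw [supp_eq_iff]
    constructor
    · intro i
      by_cases h : i ∈ S <;> simp [h]
    · intro j
      by_cases h : j ∈ T <;> simp [h]
  · intro v
    have hs := (supp_eq_iff v.1 S T).mp v.2.2
    apply Subtype.ext
    apply Prod.ext
    · funext i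
      by_cases h : i ∈ S
      · simp [h]
      · have : v.1.1 i = 0 := by
          by_contra h'; exact h ((hs.1 i).mp h')
        simp [h, this]
    · funext j
      by_cases h : j ∈ T
      · simp [h]
      · have : v.1.2 j = 0 := by
          by_contra h'; exact h ((hs.2 j).mp h')
        simp [h, this]
  · intro u
    apply Subtype.ext
    funext i
    rcases i with s | t
    · apply Units.ext
      simp
    · apply Units.ext
      simp

theorem strat_zero (H : Finset (α × β × γ)) (S : Finset α) (T : Finset β) (k : γ)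
    (hk : (edges H S T k).card = 1) (K : Type) [Field K] : strat H S T K = 0 := by
  unfold strat
  rw [Nat.card_eq_zero]
  left
  refine ⟨fun v => ?_⟩
  have hs := (supp_eq_iff v.1 S T).mp v.2.2
  have h := (system_iff H S T v.1 hs.1 hs.2).mp v.2.1 k
  obtain ⟨e, he⟩ := Finset.card_eq_one.mp hk
  rw [he, Finset.sum_singleton] at h
  have hm : e ∈ edges H S T k := by rw [he]; exact Finset.mem_singleton_self e
  unfold edges at hm
  classical
  rw [Finset.mem_filter] at hm
  rcases mul_eq_zero.mp h with h | h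
  · exact (hs.1 _).mpr hm.2.2.1 h
  · exact (hs.2 _).mpr hm.2.2.2 h

theorem dirSpan_strat (H : Finset (α × β × γ)) (h : ZDeg 2 H) (S : Finset α) (T : Finset β) :
    DirSpan (countPF (strat H S T)) := by
  classical
  by_cases h1 : ∃ k, (edges H S T k).card = 1
  · obtain ⟨k, hk⟩ := h1
    refine DirSpan.congr ?_ DirSpan.zero
    intro p r hr
    unfold countPF
    have : Fact (p : ℕ).Prime := ⟨p.2⟩
    rw [strat_zero H S T k hk]
    simp
  · have hle : ∀ k, (edges H S T k).card ≤ 2 := by
      intro k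
      refine le_trans ?_ (h k)
      rw [← Set.ncard_coe_finset]
      refine Set.ncard_le_ncard ?_ ?_
      · intro e he
        have he' : e ∈ edges H S T k := he
        unfold edges at he'
        rw [Finset.mem_filter] at he'
        exact ⟨he'.1, he'.2.1⟩
      · exact Set.Finite.subset H.finite_toSet fun e he => he.1
    have h0 : ∀ k, (edges H S T k).card = 0 ∨ (edges H S T k).card = 2 := by
      intro k
      have h2 := hle k
      have h3 : (edges H S T k).card ≠ 1 := fun h => h1 ⟨k, h⟩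
      omega
    have hex : ∀ k : {k // (edges H S T k).card = 2}, ∃ ab : (S × T) × (S × T), ab.1 ≠ ab.2 ∧
        edges H S T k.1 = {(ab.1.1.1, ab.1.2.1, k.1), (ab.2.1.1, ab.2.2.1, k.1)} := by
      intro k
      obtain ⟨e, f, hef, he⟩ := Finset.card_eq_two.mp k.2
      have hme : e ∈ edges H S T k.1 := by rw [he]; simp
      have hmf : f ∈ edges H S T k.1 := by rw [he]; simp
      unfold edges at hme hmf
      rw [Finset.mem_filter] at hme hmf
      refine ⟨((⟨e.1, hme.2.2.1⟩, ⟨e.2.1, hme.2.2.2⟩), (⟨f.1, hmf.2.2.1⟩, ⟨f.2.1, hmf.2.2.2⟩)), ?_, ?_⟩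
      · intro hh
        apply hef
        simp only [Prod.mk.injEq, Subtype.mk.injEq] at hh
        exact Prod.ext hh.1 (Prod.ext hh.2 (hme.2.1.trans hmf.2.1.symm))
      · rw [he]
        dsimp only
        congr 1
        · rw [← hme.2.1]
        · rw [← hmf.2.1]
    choose ab hab using hex
    refine DirSpan.congr ?_ (dirSpan_torus (expo (fun k => (ab k).1) (fun k => (ab k).2)))
    intro p r hr
    have : Fact (p : ℕ).Prime := ⟨p.2⟩
    unfold countPF
    rw [strat_torus H S T (fun k => (ab k).1) (fun k => (ab k).2) hab h0]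

end StrataAux

theorem dirSpan_bil {α β γ : Type} [Fintype α] [Fintype β] [Fintype γ] (H : Finset (α × β × γ))
    (h : ZDeg 2 H) : DirSpan (countPF (bilCount H)) := by
  classical
  refine DirSpan.congr ?_ (DirSpan.sum (Finset.univ : Finset (Finset α × Finset β))
    (fun ST => countPF (StrataAux.strat H ST.1 ST.2))
    fun ST _ => StrataAux.dirSpan_strat H h ST.1 ST.2)
  intro p r hr
  have : Fact (p : ℕ).Prime := ⟨p.2⟩
  unfold countPF
  rw [StrataAux.bilCount_eq]
  push_cast
  rfl

theorem dirSpan_cubic {α β γ : Type} [Fintype α] [Fintype β] [Fintype γ] (H : Finset (α × β × γ))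
    (h : ZDeg 2 H) : DirSpan (countPF (cubicCount H)) := by
  refine DirSpan.congr ?_ (DirSpan.mul (DirSpan.qpow (-1)) (DirSpan.add
    (DirSpan.qpow (Fintype.card α + Fintype.card β + Fintype.card γ : ℕ))
    (DirSpan.mul (DirSpan.mul (DirSpan.qpow (Fintype.card γ : ℕ))
      (DirSpan.sub (DirSpan.qpow 1) DirSpan.one)) (dirSpan_bil H h))))
  intro p r hr
  have : Fact (p : ℕ).Prime := ⟨p.2⟩
  unfold countPF
  have hc := cubic_bil H (GaloisField (p : ℕ) r)
  rw [GaloisField.card _ _ (by omega)] at hc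
  have hc' : (((p : ℕ) : ℂ) ^ r) * (cubicCount H (GaloisField (p : ℕ) r) : ℂ) =
      (((p : ℕ) : ℂ) ^ r) ^ (Fintype.card α + Fintype.card β + Fintype.card γ) +
        (((p : ℕ) : ℂ) ^ r) ^ Fintype.card γ * ((((p : ℕ) : ℂ) ^ r) - 1) *
          (bilCount H (GaloisField (p : ℕ) r) : ℂ) := by
    exact_mod_cast congrArg (Int.cast : ℤ → ℂ) hc
  have hq : (((p : ℕ) : ℂ) ^ r) ≠ 0 := pow_ne_zero _ (by exact_mod_cast p.2.ne_zero)
  simp only [zpow_natCast, zpow_one]
  rw [← hc', zpow_neg_one, inv_mul_cancel_left₀ hq]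

end Pool.Agent.HGC
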