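import Pool.Agent.HGC.Hom

/-!
# Torus equations

`#{u ∈ (K^*)^ι : u^{v_l} = -1 for all l}` is a combination of Dirichlet characters.
-/

set_option autoImplicit false

open scoped BigOperators

namespace Pool.Agent.HGC

namespace TO

variable {ι : Type} [Fintype ι] {G : Type} [CommGroup G]

/-- the homomorphism attached to a point of the torus -/
def phi (u : ι → G) : (ι → ℤ) →+ Additive G where
  toFun x := Additive.ofMul (∏ i, u i ^ x i)
  map_zero' := by simp
  map_add' x y := by
    simp only [Pi.add_apply, zpow_add, Finset.prod_mul_distrib, ofMul_mul]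

theorem phi_apply (u : ι → G) (x : ι → ℤ) : phi u x = Additive.ofMul (∏ i, u i ^ x i) := rfl

/-- the quotient of the lattice by the relations -/
abbrev Quo {Λ : Type} (w : Λ → ι → ℤ) : Type := (ι → ℤ) ⧸ AddSubgroup.closure (Set.range w)

open Classical in
/-- points of the torus killed by the relations are the homomorphisms from the quotient -/
noncomputable def homEquiv {Λ : Type} (w : Λ → ι → ℤ) :
    {u : ι → G // ∀ l, ∏ i, u i ^ w l i = 1} ≃ (Quo w →+ Additive G) where
  toFun u := QuotientAddGroup.lift _ (phi u.1) (by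
    rw [AddSubgroup.closure_le]
    rintro _ ⟨l, rfl⟩
    show phi u.1 (w l) = 0
    rw [phi_apply, u.2 l]; rfl)
  invFun f := ⟨fun i => (f (QuotientAddGroup.mk (Pi.single i 1))).toMul, by
    intro l
    have h : f (QuotientAddGroup.mk (w l)) = 0 := by
      have : (QuotientAddGroup.mk (w l) : Quo w) = 0 := by
        rw [QuotientAddGroup.eq_zero_iff]
        exact AddSubgroup.subset_closure ⟨l, rfl⟩
      rw [this, map_zero]
    have h2 : w l = ∑ i, w l i • (Pi.single i (1:ℤ) : ι → ℤ) := by
      ext j
      simp [Finset.sum_apply, Pi.single_apply]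
    have h3 : f (QuotientAddGroup.mk (w l)) =
        ∑ i, w l i • f (QuotientAddGroup.mk (Pi.single i (1:ℤ))) := by
      conv_lhs => rw [h2]
      have : ((∑ i, w l i • (Pi.single i (1:ℤ) : ι → ℤ) : ι → ℤ) : Quo w) =
          ∑ i, w l i • ((Pi.single i (1:ℤ) : ι → ℤ) : Quo w) := by
        simpa using map_sum (QuotientAddGroup.mk' (AddSubgroup.closure (Set.range w)))
          (fun i => w l i • (Pi.single i (1:ℤ) : ι → ℤ)) Finset.univ
      rw [this, map_sum]
      simp [map_zsmul]
    rw [h3] at h
    have := congrArg Additive.toMul h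
    simpa using this⟩
  left_inv u := by
    ext i
    simp only [QuotientAddGroup.lift_mk, phi_apply, toMul_ofMul]
    rw [Finset.prod_eq_single i]
    · simp
    · intro j _ hj; simp [Pi.single_apply, hj]
    · simp
  right_inv f := by
    apply QuotientAddGroup.addMonoidHom_ext
    apply AddMonoidHom.functions_ext
    intro i n
    simp only [AddMonoidHom.comp_apply, QuotientAddGroup.mk'_apply, QuotientAddGroup.lift_mk,
      phi_apply]
    rw [Finset.prod_eq_single i]
    · rw [Pi.single_eq_same, ofMul_zpow, ofMul_toMul, ← map_zsmul]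
      congr 1
      rw [← QuotientAddGroup.mk_zsmul, ← Pi.single_smul]
      simp
    · intro j _ hj; simp [Pi.single_apply, hj]
    · simp

theorem dirSpan_one {Λ : Type} (w : Λ → ι → ℤ) :
    DirSpan (countPF fun K _ => Nat.card {u : ι → Kˣ // ∀ l, ∏ i, u i ^ w l i = 1}) := by
  have h := dirSpan_hom (Quo w)
  refine DirSpan.congr ?_ h
  intro p r _
  simp only [countPF]
  have : Fact (p : ℕ).Prime := ⟨p.2⟩
  rw [Nat.card_congr (homEquiv w)]

theorem dirSpan_chi : DirSpan fun p _ => if (p : ℕ) = 2 then 0 else 1 := by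
  have : NeZero 2 := ⟨by norm_num⟩
  refine DirSpan.congr ?_ (DirSpan.basic 0 2 (1 : DirichletCharacter ℂ 2))
  intro p r hr
  have hp := p.2
  split_ifs with h2
  · rw [h2]
    have : (1 : DirichletCharacter ℂ 2) ((2 : ℕ) : ZMod 2) = 0 := by
      apply MulChar.map_nonunit
      rw [ZMod.natCast_self]
      exact not_isUnit_zero
    rw [this]
    simp
    omega
  · have hu : IsUnit ((p : ℕ) : ZMod 2) := by
      rw [ZMod.isUnit_iff_coprime]
      exact ((Nat.coprime_primes hp Nat.prime_two).2 h2)
    rw [MulChar.one_apply hu]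
    simp

theorem dirSpan_const0 : DirSpan fun _ _ => 0 := by
  have h := dirSpan_chi
  refine DirSpan.congr ?_ (DirSpan.add h (DirSpan.neg h))
  intro p r _
  ring

theorem torus_even {Λ : Type} (v : Λ → ι → ℤ) (K : Type) [Field K] (h : (-1 : K) = 1) :
    Nat.card {u : ι → Kˣ // ∀ l, ∏ i, u i ^ v l i = -1} =
      Nat.card {u : ι → Kˣ // ∀ l, ∏ i, u i ^ v l i = 1} := by
  have h1 : (-1 : Kˣ) = 1 := by
    ext; simpa using h
  rw [h1]

/-- the relations of the group of points where all values are equal and of square one -/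
def rel {Λ : Type} (v : Λ → ι → ℤ) : (Λ ⊕ Λ × Λ) → ι → ℤ
  | Sum.inl l => fun i => 2 * v l i
  | Sum.inr (l, l') => fun i => v l i - v l' i

theorem torus_odd {Λ : Type} [Nonempty Λ] (v : Λ → ι → ℤ) (K : Type) [Field K] [Finite K]
    (h : (-1 : K) ≠ 1) :
    Nat.card {u : ι → Kˣ // ∀ l, ∏ i, u i ^ v l i = -1} +
      Nat.card {u : ι → Kˣ // ∀ l, ∏ i, u i ^ v l i = 1} =
        Nat.card {u : ι → Kˣ // ∀ l, ∏ i, u i ^ rel v l i = 1} := by
  classical
  have h1 : (-1 : Kˣ) ≠ 1 := by
    intro h2; apply h; simpa using congrArg Units.val h2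
  have hrel : ∀ u : ι → Kˣ, (∀ l, ∏ i, u i ^ rel v l i = 1) ↔
      ((∀ l, ∏ i, u i ^ v l i = -1) ∨ (∀ l, ∏ i, u i ^ v l i = 1)) := by
    intro u
    constructor
    · intro hu
      have e1 : ∀ l, (∏ i, u i ^ v l i) ^ 2 = 1 := by
        intro l
        rw [← hu (Sum.inl l), ← Finset.prod_pow]
        refine Finset.prod_congr rfl fun i _ => ?_
        simp only [rel]
        rw [mul_comm, zpow_mul]; norm_cast
      have e2 : ∀ l l', (∏ i, u i ^ v l i) = ∏ i, u i ^ v l' i := by
        intro l l'
        have := hu (Sum.inr (l, l'))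
        simp only [rel, zpow_sub, Finset.prod_mul_distrib, Finset.prod_inv_distrib] at this
        exact mul_inv_eq_one.1 this
      obtain ⟨l0⟩ := ‹Nonempty Λ›
      have e3 : (∏ i, u i ^ v l0 i) = 1 ∨ (∏ i, u i ^ v l0 i) = -1 := by
        have := e1 l0
        have h5 : ((∏ i, u i ^ v l0 i : Kˣ) : K) ^ 2 = 1 := by
          rw [← Units.val_pow_eq_pow_val, this, Units.val_one]
        rw [sq] at h5
        rcases mul_self_eq_one_iff.1 h5 with h6 | h6
        · left; ext; exact h6
        · right; ext; simpa using h6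
      rcases e3 with e3 | e3
      · right; intro l; rw [e2 l l0, e3]
      · left; intro l; rw [e2 l l0, e3]
    · rintro (hu | hu)
      · rintro (l | ⟨l, l'⟩)
        · have : (∏ i, u i ^ rel v (Sum.inl l) i) = (∏ i, u i ^ v l i) ^ 2 := by
            rw [← Finset.prod_pow]
            refine Finset.prod_congr rfl fun i _ => ?_
            simp only [rel]
            rw [mul_comm, zpow_mul]; norm_cast
          rw [this, hu]; simp
        · simp only [rel, zpow_sub, Finset.prod_mul_distrib, Finset.prod_inv_distrib]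
          rw [hu, hu]; simp
      · rintro (l | ⟨l, l'⟩)
        · have : (∏ i, u i ^ rel v (Sum.inl l) i) = (∏ i, u i ^ v l i) ^ 2 := by
            rw [← Finset.prod_pow]
            refine Finset.prod_congr rfl fun i _ => ?_
            simp only [rel]
            rw [mul_comm, zpow_mul]; norm_cast
          rw [this, hu]; simp
        · simp only [rel, zpow_sub, Finset.prod_mul_distrib, Finset.prod_inv_distrib]
          rw [hu, hu]; simp
  have : Fintype K := Fintype.ofFinite K
  rw [Nat.card_congr (Equiv.subtypeEquivRight hrel)]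
  rw [Nat.card_eq_fintype_card, Nat.card_eq_fintype_card, Nat.card_eq_fintype_card]
  rw [Fintype.card_subtype_or_disjoint]
  rw [Pi.disjoint_iff]
  intro u
  rw [Prop.disjoint_iff]
  rintro ⟨a, b⟩
  obtain ⟨l0⟩ := ‹Nonempty Λ›
  exact h1 ((a l0).symm.trans (b l0))

end TO

open TO in
theorem dirSpan_torus {ι Λ : Type} [Fintype ι] [Fintype Λ] (v : Λ → ι → ℤ) :
    DirSpan (countPF fun K _ => Nat.card {u : ι → Kˣ // ∀ l, ∏ i, u i ^ v l i = -1}) := by
  rcases isEmpty_or_nonempty Λ with hΛ | hΛ
  · refine DirSpan.congr ?_ (dirSpan_one v)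
    intro p r _
    simp only [countPF]
    have : Fact (p : ℕ).Prime := ⟨p.2⟩
    congr 1
    apply Nat.card_congr
    apply Equiv.subtypeEquivRight
    intro u
    constructor <;> intro _ l <;> exact isEmptyElim l
  · have hA := dirSpan_one (rel v)
    have hB := dirSpan_one v
    refine DirSpan.congr ?_
      (DirSpan.add (DirSpan.mul dirSpan_chi (DirSpan.add hA (DirSpan.neg (DirSpan.add hB hB)))) hB)
    intro p r hr
    simp only [countPF]
    have : Fact (p : ℕ).Prime := ⟨p.2⟩
    split_ifs with h2
    · have h1 : (-1 : GaloisField (p : ℕ) r) = 1 := by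
        have : CharP (GaloisField (p : ℕ) r) 2 := by
          rw [← h2]; infer_instance
        exact CharTwo.neg_eq 1
      rw [torus_even v _ h1]
      ring
    · have h1 : (-1 : GaloisField (p : ℕ) r) ≠ 1 := by
        intro h3
        have : CharP (GaloisField (p : ℕ) r) p := inferInstance
        have := (Ring.neg_one_ne_one_of_char_ne_two (R := GaloisField (p : ℕ) r) (by
          rw [ringChar.eq (GaloisField (p : ℕ) r) (p : ℕ)]; exact h2))
        exact this h3
      have h4 := torus_odd v (GaloisField (p : ℕ) r) h1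
      rw [← h4]
      push_cast
      ring

end Pool.Agent.HGC
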