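import Pool.Agent.HGC.Char
import Pool.Agent.HGC.Bil
import Pool.Agent.HGC.NZ
import Pool.Agent.HGC.LocW
import Pool.Agent.HGC.Poly
import Pool.Agent.HGC.Compile
import Pool.Agent.HGC.Proj

/-! # Universality -/

set_option autoImplicit false

open scoped BigOperators

namespace Pool.Agent.HGC

theorem card_gf (p : Nat.Primes) (r : ℕ) (hr : 1 ≤ r) :
    haveI : Fact (p : ℕ).Prime := ⟨p.2⟩
    Nat.card (GaloisField p r) = (p : ℕ) ^ r := by
  have : Fact (p : ℕ).Prime := ⟨p.2⟩
  exact GaloisField.card p r (by omega)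

theorem Admissible.divq1_pow {Q : PF → Prop} (hQ : Admissible Q) (n : ℕ) {f : PF}
    (h : Q fun p r => (((p : ℕ) : ℂ) ^ r - 1) ^ n * f p r) : Q f := by
  induction n generalizing f with
  | zero => exact hQ.congr (fun p r _ => by simp) h
  | succ n ih =>
    refine hQ.divq1 (ih (hQ.congr (fun p r _ => ?_) h))
    ring

theorem universal {Q : PF → Prop} (hQ : Admissible Q)
    (hH : ∀ (a b c : ℕ) (H : Finset (Fin a × Fin b × Fin c)), MaxDeg 3 H → Q (countPF (cubicCount H)))
    {n m : ℕ} (P : Fin m → MvPolynomial (Fin n) ℤ) :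
    Q (countPF (affCount P)) ∧
      ((∀ i, ∃ d, 1 ≤ d ∧ (P i).IsHomogeneous d) → Q (countPF (projCount P))) := by
  have key : Q (countPF (affCount P)) := by
    obtain ⟨V, J, _, _, G, hG⟩ := exists_gadget P
    obtain ⟨α, β, γ, _, _, _, H, S, T, hdeg, hcount⟩ := gadget_compile G
    have h1 := adm_bilNZ hQ hH H hdeg S T
    refine hQ.divq1_pow (S.card + T.card) (hQ.congr (fun p r hr => ?_) h1)
    have : Fact (p : ℕ).Prime := ⟨p.2⟩
    simp only [countPF]
    rw [hG, hcount, card_gf p r hr]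
    have : 1 ≤ (p : ℕ) ^ r := Nat.one_le_pow _ _ p.2.pos
    push_cast [Nat.cast_sub this]
    ring
  refine ⟨key, fun hP => ?_⟩
  choose d hd hPd using hP
  refine hQ.divq1 (hQ.congr (fun p r hr => ?_) (hQ.add key (hQ.neg hQ.one)))
  have : Fact (p : ℕ).Prime := ⟨p.2⟩
  have h := aff_proj P d hd hPd (GaloisField p r)
  rw [card_gf p r hr] at h
  simp only [countPF]
  have h' : ((affCount P (GaloisField p r) : ℕ) : ℂ) =
      1 + (((p : ℕ) : ℂ) ^ r - 1) * projCount P (GaloisField p r) := by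
    exact_mod_cast congrArg (fun z : ℤ => (z : ℂ)) h
  rw [h']
  ring

theorem affCount_le {n m : ℕ} (P : Fin m → MvPolynomial (Fin n) ℤ) (K : Type) [Field K] [Finite K] :
    affCount P K ≤ Nat.card K ^ n := by
  unfold affCount
  calc Nat.card {x : Fin n → K // ∀ i, MvPolynomial.aeval x (P i) = 0} ≤ Nat.card (Fin n → K) :=
        Nat.card_le_card_of_injective _ Subtype.val_injective
    _ = Nat.card K ^ n := by rw [Nat.card_fun]; simp

theorem norm_countPF_le {N : (K : Type) → [Field K] → ℕ} (B : ℕ)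
    (h : ∀ (K : Type) [Field K] [Finite K], N K ≤ Nat.card K ^ B) (p : Nat.Primes) (r : ℕ)
    (hr : 1 ≤ r) : ‖countPF N p r‖ ≤ (((p : ℕ) : ℝ) ^ r) ^ B := by
  have : Fact (p : ℕ).Prime := ⟨p.2⟩
  simp only [countPF]
  rw [Complex.norm_natCast]
  have h1 := h (GaloisField p r)
  rw [card_gf p r hr] at h1
  exact_mod_cast h1

theorem projCount_le {n m : ℕ} (P : Fin m → MvPolynomial (Fin n) ℤ)
    (hP : ∀ i, ∃ d, 1 ≤ d ∧ (P i).IsHomogeneous d) (K : Type) [Field K] [Finite K] :
    projCount P K ≤ Nat.card K ^ n := by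
  choose d hd hPd using hP
  have h := aff_proj P d hd hPd K
  have h1 := affCount_le P K
  have h2 : 2 ≤ Nat.card K := Finite.one_lt_card
  have h3 : (projCount P K : ℤ) ≤ affCount P K := by
    rw [h]
    have h4 : (2 : ℤ) ≤ Nat.card K := by exact_mod_cast h2
    have h5 : (0 : ℤ) ≤ projCount P K := by positivity
    nlinarith
  have h6 : projCount P K ≤ affCount P K := by exact_mod_cast h3
  exact h6.trans h1

theorem admissible_locW : Admissible LocW := admissible_locW_of admissible_continues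

/-- `f` is controlled by finitely many hypergraphs of maximal degree at most `3`. -/
def Ctrl (f : PF) : Prop :=
  ∃ L : List HG, (∀ h ∈ L, MaxDeg 3 h.edges) ∧
    ((∀ h ∈ L, Continues h.count) → Continues f) ∧
    ((∀ h ∈ L, WeightsContinue h.count) → LocW f)

theorem admissible_ctrl : Admissible Ctrl where
  one := ⟨[], by simp, fun _ => admissible_continues.one, fun _ => admissible_locW.one⟩
  add := by
    rintro f g ⟨L, h1, h2, h3⟩ ⟨M, k1, k2, k3⟩
    refine ⟨L ++ M, ?_, ?_, ?_⟩
    · intro h hh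
      rcases List.mem_append.1 hh with hh | hh
      · exact h1 h hh
      · exact k1 h hh
    · intro hc
      exact admissible_continues.add (h2 fun h hh => hc h (List.mem_append_left _ hh))
        (k2 fun h hh => hc h (List.mem_append_right _ hh))
    · intro hc
      exact admissible_locW.add (h3 fun h hh => hc h (List.mem_append_left _ hh))
        (k3 fun h hh => hc h (List.mem_append_right _ hh))
  neg := by
    rintro f ⟨L, h1, h2, h3⟩
    exact ⟨L, h1, fun h => admissible_continues.neg (h2 h), fun h => admissible_locW.neg (h3 h)⟩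
  mulq := by
    rintro f ⟨L, h1, h2, h3⟩
    exact ⟨L, h1, fun h => admissible_continues.mulq (h2 h), fun h => admissible_locW.mulq (h3 h)⟩
  divq := by
    rintro f ⟨L, h1, h2, h3⟩
    exact ⟨L, h1, fun h => admissible_continues.divq (h2 h), fun h => admissible_locW.divq (h3 h)⟩
  divq1 := by
    rintro f ⟨L, h1, h2, h3⟩
    exact ⟨L, h1, fun h => admissible_continues.divq1 (h2 h),
      fun h => admissible_locW.divq1 (h3 h)⟩
  congr := by
    rintro f g hfg ⟨L, h1, h2, h3⟩
    exact ⟨L, h1, fun h => admissible_continues.congr hfg (h2 h),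
      fun h => admissible_locW.congr hfg (h3 h)⟩

theorem locW_of_weights {f : PF} (h : WeightsContinue f) : LocW f := by
  obtain ⟨μ, h1, h2⟩ := h
  refine ⟨0, μ, ?_, h2⟩
  intro p r hr
  rw [← h1 p r hr]
  simp

theorem ctrl_hypergraph (a b c : ℕ) (H : Finset (Fin a × Fin b × Fin c)) (h : MaxDeg 3 H) :
    Ctrl (countPF (cubicCount H)) := by
  refine ⟨[⟨a, b, c, H⟩], ?_, ?_, ?_⟩
  · intro h' hh
    rw [List.mem_singleton] at hh
    subst hh
    exact h
  · intro hc
    exact hc ⟨a, b, c, H⟩ (List.mem_singleton.2 rfl)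
  · intro hc
    exact locW_of_weights (hc ⟨a, b, c, H⟩ (List.mem_singleton.2 rfl))

theorem ctrl_aff {n m : ℕ} (P : Fin m → MvPolynomial (Fin n) ℤ) :
    ∃ L : List HG, (∀ h ∈ L, MaxDeg 3 h.edges) ∧
      ((∀ h ∈ L, Continues h.count) → Continues (countPF (affCount P))) ∧
      ((∀ h ∈ L, WeightsContinue h.count) →
        ∀ μ, IsSpectrum (countPF (affCount P)) μ → ∀ w : ℤ, Continues (weightPart μ w)) := by
  obtain ⟨L, h1, h2, h3⟩ := (universal admissible_ctrl ctrl_hypergraph P).1
  exact ⟨L, h1, h2, fun h μ hμ w =>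
    locW_final_of admissible_continues n (norm_countPF_le n fun K _ _ => affCount_le P K) (h3 h) μ hμ w⟩

theorem ctrl_proj {n m : ℕ} (P : Fin m → MvPolynomial (Fin n) ℤ)
    (hP : ∀ i, ∃ d, 1 ≤ d ∧ (P i).IsHomogeneous d) :
    ∃ L : List HG, (∀ h ∈ L, MaxDeg 3 h.edges) ∧
      ((∀ h ∈ L, Continues h.count) → Continues (countPF (projCount P))) ∧
      ((∀ h ∈ L, WeightsContinue h.count) →
        ∀ μ, IsSpectrum (countPF (projCount P)) μ → ∀ w : ℤ, Continues (weightPart μ w)) := by
  obtain ⟨L, h1, h2, h3⟩ := (universal admissible_ctrl ctrl_hypergraph P).2 hP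
  exact ⟨L, h1, h2, fun h μ hμ w =>
    locW_final_of admissible_continues n (norm_countPF_le n fun K _ _ => projCount_le P hP K) (h3 h) μ hμ w⟩

end Pool.Agent.HGC
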